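import Pool.Agent.H98.AF.ACon

/-!
Row FFClause: the formula of an input clause has the value 1 on `f`.
PROOFS. Let `lf l := h (if l.2 then .var l.1 else .neg (.var l.1))` (value of the literal). `lit_act`: for `m ∈ M j`: `s.lit l m = act (1 - lf l) m`
(`h_var`, `h_neg`, `mono_single`, `act_var`, `act_sub`, `act_one`; out of range: `lf = 0` or `1`). `lit_dg`: `lf l ∈ Dg 1`.
`foldr_act`: induction on `C`: for `f ∈ M 0`, `C.foldr s.lit f = act (∏_(l ∈ C) (1 - lf l)) f` and the product is in `Dg C.length` (`act_mul`,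
`act_mem` to see that the inner vector is in `M (C.length - 1)`).
`one_split`: `1 = ∏ (1 - a_i) + Σ_i c_i a_i` with `c_i ∈ Dg C.length` products of `1 - a_i'`; as an induction: for every `P ∈ Dg T` with
`Z f (P * a)` for all `a` in the list and `Z f (P * ∏ (1-a))` we get `Z f P` (write `P * Π' = P * Π'(1-a) + Π' * (P * a)`, so first
`Z f (P * Π')`, induction on the list).
`clause_ok`: `P := 1 - h (clauseFm C)`, `a = lf l`, `l ∈ C`: by `gate_mem` with `k = true` (`pl true g = g`) for the list of the literal formulas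
(their depth is ≤ 1 ≤ d... use `d := 1`? NO: the gate is `clauseFm C` whose members `fl` are the `lf l` themselves: `hl_var`, `hl_neg`, so
`resp_cnL` gives `Z f ((1 - h) * lf l)` directly, no degrees needed). `Z f (P * ∏ (1 - lf l))`: the product kills `f` by hypothesis,
`Z_mul`. The degree of `P` is `≤ T` by hypothesis `hP`.
-/

set_option autoImplicit false
open Finset

namespace ACpFrege

variable {K : Type} [Field K] {E : Type} [AddCommGroup E] [Module K E] {n : ℕ} {p : ℕ}

/-- The formula of a literal. -/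
def litFm (p : ℕ) (l : Lit) : Fm p := if l.2 then .var l.1 else .neg (.var l.1)

private theorem AClause_var_lt (s : Slow K E n) (t e : ℕ) {x : ℕ} (hx : x < n) :
    s.h t e (.var x : Fm p) = mono K {⟨x, hx⟩} := by
  rw [h_var, mono_single]
  funext a
  rw [dif_pos hx]

private theorem AClause_var_ge (s : Slow K E n) (t e : ℕ) {x : ℕ} (hx : ¬ x < n) :
    s.h t e (.var x : Fm p) = 0 := by
  rw [h_var]
  funext a
  rw [dif_neg hx]
  rfl

private theorem AClause_var_dg (s : Slow K E n) (t e : ℕ) (x : ℕ) : s.h t e (.var x : Fm p) ∈ Dg K n 1 := by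
  by_cases hx : x < n
  · rw [AClause_var_lt s t e hx]
    exact mono_mem _ (by rw [Finset.card_singleton])
  · rw [AClause_var_ge s t e hx]
    exact Submodule.zero_mem _

theorem lit_dg (s : Slow K E n) (t e : ℕ) (l : Lit) : s.h t e (litFm p l) ∈ Dg K n 1 := by
  unfold litFm
  by_cases hb : l.2
  · rw [if_pos hb]
    exact AClause_var_dg s t e _
  · rw [if_neg hb, h_neg]
    exact Submodule.sub_mem _ (Dg_one _) (AClause_var_dg s t e _)

theorem lit_act (s : Slow K E n) (t e : ℕ) (l : Lit) (m : E) : s.lit l m = s.act (1 - s.h t e (litFm p l)) m := by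
  unfold litFm Slow.lit
  by_cases hx : l.1 < n
  · rw [dif_pos hx]
    by_cases hb : l.2
    · rw [if_pos hb, if_pos hb, AClause_var_lt s t e hx, act_sub, act_one, act_var]
      rfl
    · rw [if_neg hb, if_neg hb, h_neg, AClause_var_lt s t e hx, sub_sub_cancel, act_var]
  · rw [dif_neg hx]
    by_cases hb : l.2
    · rw [if_pos hb, if_pos hb, AClause_var_ge s t e hx, sub_zero, act_one]
      rfl
    · rw [if_neg hb, if_neg hb, h_neg, AClause_var_ge s t e hx, sub_sub_cancel, act_zero]
      rfl

private theorem AClause_prod_dg (l : List (Pt n → K)) (hl : ∀ a ∈ l, a ∈ Dg K n 1) :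
    (l.map fun a => 1 - a).prod ∈ Dg K n l.length := by
  induction l with
  | nil => exact Dg_one _
  | cons a l ih =>
    rw [List.map_cons, List.prod_cons, List.length_cons, Nat.add_comm l.length 1]
    exact Dg_mul (Submodule.sub_mem _ (Dg_one _) (hl a List.mem_cons_self)) (ih fun b hb => hl b (List.mem_cons_of_mem _ hb))

theorem foldr_act (s : Slow K E n) (t e : ℕ) {f : E} (hf : f ∈ s.M 0) (C : List Lit) (hC : C.length ≤ s.L) :
    C.foldr s.lit f = s.act ((C.map fun l => 1 - s.h t e (litFm p l)).prod) f ∧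
      (C.map fun l => 1 - s.h t e (litFm p l)).prod ∈ Dg K n C.length := by
  induction C with
  | nil =>
    refine ⟨?_, Dg_one _⟩
    rw [List.foldr_nil, List.map_nil, List.prod_nil, act_one]
    rfl
  | cons l C ih =>
    rw [List.length_cons] at hC
    obtain ⟨h1, h2⟩ := ih (by omega)
    have h3 : 1 - s.h t e (litFm p l) ∈ Dg K n 1 := Submodule.sub_mem _ (Dg_one _) (lit_dg s t e l)
    constructor
    · rw [List.foldr_cons, h1, lit_act (p := p) s t e, List.map_cons, List.prod_cons]
      exact act_mul s hf h3 h2 (by omega)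
    · rw [List.map_cons, List.prod_cons, List.length_cons, Nat.add_comm C.length 1]
      exact Dg_mul h3 h2

theorem split_list (s : Slow K E n) {f : E} (hf : f ∈ s.M 0) (l : List (Pt n → K)) (hl : ∀ a ∈ l, a ∈ Dg K n 1) {T : ℕ}
    {P : Pt n → K} (hP : P ∈ Dg K n T) (hL : T + l.length + 1 ≤ s.L) (h1 : ∀ a ∈ l, s.Z f (P * a))
    (h2 : s.Z f (P * (l.map fun a => 1 - a).prod)) : s.Z f P := by
  induction l with
  | nil =>
    rw [List.map_nil, List.prod_nil, mul_one] at h2
    exact h2
  | cons a l ih =>
    rw [List.length_cons] at hL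
    refine ih (fun b hb => hl b (List.mem_cons_of_mem _ hb)) (by omega) (fun b hb => h1 b (List.mem_cons_of_mem _ hb)) ?_
    have h3 : s.Z f ((l.map fun a => 1 - a).prod * (P * a)) :=
      Z_mul s hf (AClause_prod_dg l fun b hb => hl b (List.mem_cons_of_mem _ hb)) (Dg_mul hP (hl a List.mem_cons_self))
        (h1 a List.mem_cons_self) (by omega)
    rw [List.map_cons, List.prod_cons] at h2
    have h4 : P * (l.map fun a => 1 - a).prod =
        P * ((1 - a) * (l.map fun a => 1 - a).prod) + (l.map fun a => 1 - a).prod * (P * a) := by ring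
    rw [h4]
    exact Z_add s h2 h3

theorem clause_ok [Fact p.Prime] [CharP K p] (s : Slow K E n) {t e T : ℕ} {f : E} (hf : f ∈ s.M 0) (C : List Lit)
    (hC : C.foldr s.lit f = 0) (hR : s.Resp t e f (clauseFm C : Fm p)) (hP : s.h t e (clauseFm C : Fm p) ∈ Dg K n T)
    (hL : T + C.length + 1 ≤ s.L) : s.Z f (1 - s.h t e (clauseFm C : Fm p)) := by
  have hPd : 1 - s.h t e (clauseFm C : Fm p) ∈ Dg K n T := Submodule.sub_mem _ (Dg_one _) hP
  obtain ⟨h1, h2⟩ := foldr_act (p := p) s t e hf C (by omega)
  have h3 : s.Z f ((C.map fun l => 1 - s.h t e (litFm p l)).prod) := by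
    unfold Slow.Z
    rw [← h1, hC]
  refine split_list s hf (C.map fun l => s.h t e (litFm p l)) ?_ hPd (by rw [List.length_map]; exact hL) ?_ ?_
  · intro a ha
    obtain ⟨l, _, rfl⟩ := List.mem_map.1 ha
    exact lit_dg s t e l
  · intro a ha
    obtain ⟨l, hl, rfl⟩ := List.mem_map.1 ha
    have h4 : s.h t e (litFm p l) ∈ s.fl t e true (C.map fun l => if l.2 then (.var l.1 : Fm p) else .neg (.var l.1)) := by
      rw [mem_fl]
      refine ⟨litFm p l, List.mem_map.2 ⟨l, hl, rfl⟩, ?_⟩
      unfold litFm
      by_cases hb : l.2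
      · rw [if_pos hb, hl_var]
        exact List.mem_singleton.2 rfl
      · rw [if_neg hb, hl_neg, h_neg]
        exact List.mem_singleton.2 rfl
    have h5 := resp_cnL s t e f true _ hR h4
    exact h5
  · rw [List.map_map]
    exact Z_mul s hf hPd h2 h3 (by omega)

end ACpFrege
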