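import Pool.Agent.H98.AF.AVal
import Pool.Agent.H65.AF.AGate

/-!
Row FFPick: a nonzero vector of `M 0` which respects all gates of a list.
PROOFS. `good_sel`: `gate` applied to `b := fam k l`, `r := l.length` (members `pl k g`; zero beyond the list) gives `∃ I, Good`, so the
`if` in `Slow.sel` is true and `h.choose_spec` is `Good` (second part). `pick1`: `W := krs (M 0) (hprod ..) (range r) (fam k l)`;
a vector of `W` is killed by `(1 - pl k (gv l)) * pl k g` for all `g ∈ l`: `pl_gv`, `1 - (1 - x) = x`, `fam_eq`.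
`inter_bound`: for subspaces `W1, W2 ≤ V`: `dim (W1 ⊓ W2) + dim V ≥ dim W1 + dim W2` (`Submodule.finrank_sup_add_finrank_inf_eq`).
`pick`: induction on the list `Λ`: there is a subspace `W ≤ M 0` of vectors respecting all of `Λ` with
`3^t dim M_0 ≤ 3^t dim W + |Λ| 2^t dim M_(te)` (non-cn formulas: `resp_triv`; for `cnL k l` intersect with the `W` of `pick1`). In the
end `dim W > 0`, take a nonzero vector (`Submodule.finrank_pos_iff` / `Submodule.ne_bot_iff`).
-/

set_option autoImplicit false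
open Finset

namespace ACpFrege

variable {K : Type} [Field K] {E : Type} [AddCommGroup E] [Module K E] {n : ℕ} {p : ℕ}

theorem good_sel [FiniteDimensional K E] [Fact p.Prime] [CharP K p] (s : Slow K E n) {t e : ℕ} (k : Bool) (l : List (Pt n → K))
    (hl : ∀ g ∈ l, Bv g ∧ g ∈ Dg K n e) (hL : (t + 4) * (p * e) ≤ s.L) :
    3 ^ t * Module.finrank K (s.M 0) ≤
      3 ^ t * Module.finrank K (s.krs (s.M 0) (hprod p t (s.sel p t e k l) (fam k l)) (Finset.range l.length) (fam k l)) +
        2 ^ t * Module.finrank K (s.M (t * e)) := by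
  have hb : ∀ c < l.length, fam k l c ∈ Dg K n e := by
    intro c hc
    rw [fam_eq k l c hc]
    have h1 := (hl _ (List.getElem_mem hc)).2
    unfold pl
    by_cases hk : k
    · rw [if_pos hk]
      exact h1
    · rw [if_neg hk]
      exact Submodule.sub_mem _ (Dg_one _) h1
  have h01 : ∀ c < l.length, Bv (fam k l c) := by
    intro c hc
    rw [fam_eq k l c hc]
    exact pl_bv (hl _ (List.getElem_mem hc)).1
  have hex : ∃ I, s.Good p t e l.length (fam k l) I := gate (p := p) s (fam k l) hb h01 hL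
  have hsel : s.sel p t e k l = hex.choose := by
    unfold Slow.sel
    rw [dif_pos hex]
  rw [hsel]
  exact hex.choose_spec.2

theorem pick1 [FiniteDimensional K E] [Fact p.Prime] [CharP K p] (s : Slow K E n) {t e : ℕ} (k : Bool) (l : List (Pt n → K))
    (hl : ∀ g ∈ l, Bv g ∧ g ∈ Dg K n e) (hL : (t + 4) * (p * e) ≤ s.L) :
    ∃ W : Submodule K E, W ≤ s.M 0 ∧ (∀ f ∈ W, ∀ g ∈ l, s.Z f ((1 - pl k (s.gv p t e k l)) * pl k g)) ∧
      3 ^ t * Module.finrank K (s.M 0) ≤ 3 ^ t * Module.finrank K W + 2 ^ t * Module.finrank K (s.M (t * e)) := by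
  refine ⟨s.krs (s.M 0) (hprod p t (s.sel p t e k l) (fam k l)) (Finset.range l.length) (fam k l), ?_, ?_, ?_⟩
  · unfold Slow.krs
    exact inf_le_left
  · intro f hf g hg
    obtain ⟨i, hi, hig⟩ := List.mem_iff_getElem.1 hg
    unfold Slow.krs at hf
    rw [Submodule.mem_inf] at hf
    have h1 := hf.2
    simp only [Submodule.mem_iInf, LinearMap.mem_ker] at h1
    have h2 := h1 i (Finset.mem_range.2 hi)
    rw [fam_eq k l i hi, hig] at h2
    unfold Slow.Z
    rw [pl_gv, sub_sub_cancel]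
    exact h2
  · exact good_sel s k l hl hL

theorem inter_bound [FiniteDimensional K E] (V W1 W2 : Submodule K E) (h1 : W1 ≤ V) (h2 : W2 ≤ V) :
    Module.finrank K W1 + Module.finrank K W2 ≤ Module.finrank K ↥(W1 ⊓ W2) + Module.finrank K V := by
  have r3 := Submodule.finrank_sup_add_finrank_inf_eq W1 W2
  have r4 : Module.finrank K ↥(W1 ⊔ W2) ≤ Module.finrank K V := Submodule.finrank_mono (sup_le h1 h2)
  omega

private theorem pick_aux [FiniteDimensional K E] [Fact p.Prime] [CharP K p] (s : Slow K E n) {t e : ℕ} (Λ : List (Fm p))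
    (hΛ : ∀ k l, cnL k l ∈ Λ → ∀ g ∈ s.fl t e k l, g ∈ Dg K n e) (hL : (t + 4) * (p * e) ≤ s.L) :
    ∃ W : Submodule K E, W ≤ s.M 0 ∧ (∀ f ∈ W, ∀ B ∈ Λ, s.Resp t e f B) ∧
      3 ^ t * Module.finrank K (s.M 0) ≤
        3 ^ t * Module.finrank K W + Λ.length * (2 ^ t * Module.finrank K (s.M (t * e))) := by
  induction Λ with
  | nil =>
    refine ⟨s.M 0, le_rfl, ?_, ?_⟩
    · intro f _ B hB
      exact absurd hB List.not_mem_nil
    · simp
  | cons B Λ ih =>
    obtain ⟨W, hW0, hWR, hWd⟩ := ih (fun k l hkl => hΛ k l (List.mem_cons_of_mem _ hkl))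
    by_cases hB : ∃ k l, B = cnL k l
    · obtain ⟨k, l, hkl⟩ := hB
      have hmem : cnL k l ∈ B :: Λ := by
        rw [← hkl]
        exact List.mem_cons_self
      obtain ⟨W1, hW10, hW1R, hW1d⟩ := pick1 s k (s.fl t e k l)
        (fun g hg => ⟨fl_bv s t e k l g hg, hΛ k l hmem g hg⟩) hL
      refine ⟨W ⊓ W1, le_trans inf_le_left hW0, ?_, ?_⟩
      · intro f hf C hC
        rw [Submodule.mem_inf] at hf
        rcases List.mem_cons.1 hC with hCB | hC
        · rw [hCB, hkl, resp_iff]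
          exact hW1R f hf.2
        · exact hWR f hf.1 C hC
      · have h3 := inter_bound (s.M 0) W W1 hW0 hW10
        have h4 := Nat.mul_le_mul_left (3 ^ t) h3
        rw [Nat.mul_add, Nat.mul_add] at h4
        rw [List.length_cons, Nat.add_mul, Nat.one_mul]
        omega
    · refine ⟨W, hW0, ?_, ?_⟩
      · intro f hf C hC
        rcases List.mem_cons.1 hC with hCB | hC
        · rw [hCB]
          apply resp_triv
          intro k l hkl
          exact hB ⟨k, l, hkl⟩
        · exact hWR f hf C hC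
      · rw [List.length_cons, Nat.add_mul, Nat.one_mul]
        omega

theorem pick [FiniteDimensional K E] [Fact p.Prime] [CharP K p] (s : Slow K E n) {t e : ℕ} (Λ : List (Fm p))
    (hΛ : ∀ k l, cnL k l ∈ Λ → ∀ g ∈ s.fl t e k l, g ∈ Dg K n e) (hL : (t + 4) * (p * e) ≤ s.L)
    (hN : Λ.length * 2 ^ t * Module.finrank K (s.M (t * e)) < 3 ^ t * Module.finrank K (s.M 0)) :
    ∃ f ∈ s.M 0, f ≠ 0 ∧ ∀ B ∈ Λ, s.Resp t e f B := by
  obtain ⟨W, hW0, hWR, hWd⟩ := pick_aux s Λ hΛ hL
  have hne : W ≠ ⊥ := by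
    intro hbot
    rw [hbot, finrank_bot, Nat.mul_zero, Nat.zero_add, ← Nat.mul_assoc] at hWd
    omega
  obtain ⟨f, hf, hf0⟩ := Submodule.exists_mem_ne_zero_of_ne_bot hne
  exact ⟨f, hW0 hf, hf0, hWR f hf⟩

end ACpFrege
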