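import Pool.Agent.H98.AF.ARule
import Pool.Agent.H98.AF.AClause
import Pool.Agent.H98.AF.APick

/-!
Row FFSound: Theorem A. `TA S p t d` is the degree budget.
PROOF of `main_A`. Take `K, E, s` from `HasSlow`, `e := (t*p)^d`. Gates: `Λ := (π.map Fm.subs).flatten ++ aux`, where `aux` lists, for every line
index `i` with a rule instance `(R, u, G)` (choice), the formulas `cnL true (G j)`, `cnL false (G j)`, `j ∈ R.sqs`
(`List.flatMap` over `List.range π.length`); `Λ.length ≤ psize π + π.length * (2 * sysC S) ≤ 3 * sysC S * psize π` (`subs_length`;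
every formula has size ≥ 1, so `π.length ≤ psize π`; `R.sqs.length ≤ sysC S` for `R ∈ S`). Every `cnL k l ∈ Λ` has members of depth ≤ d: a
subformula of a line `A` (`dep_subs`, `A.dep 0 ≤ d`, members are subformulas), resp. members of `G j`: they are subformulas of a line
(`sqs_sub`: of a member of the instance of a premise, which is an earlier line, or of the conclusion, which is the line). So
`deg_fl`. If `3 * sysC S * psize π * (2^t * A) < 3^t` then `pick` gives `f ≠ 0` respecting all of `Λ`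
(`finrank (M (t*e)) ≤ finrank (M L) ≤ A * finrank (M 0)`, `M_le`, `Submodule.finrank_mono`).
By strong induction on the index, every line `B` has `Z f (1 - h B)`: clauses by `clause_ok` (`C.foldr s.lit f = 0` by the last property of
`HasSlow` with `j = 0`; `h (clauseFm C) ∈ Dg ((t*p)^d) ≤ Dg T`), rules by `rule_ok`. The line `cnL true []`: its value is
`gv true [] = 1 - hprod .. (fam true [])` and all members of `fam true []` are 0, so (p ≥ 2) `hprod = 1`, value 0 (`bot_val`). So `Z f 1`, `f = 0`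
(`Z_one`), contradiction.
-/

set_option autoImplicit false
open Finset

namespace ACpFrege

variable {K : Type} [Field K] {E : Type} [AddCommGroup E] [Module K E] {n : ℕ} {p : ℕ}

/-- The degree budget. -/
def TA {p : ℕ} (S : List (Rule p)) (t d : ℕ) : ℕ := sysC S * (p * (t * (p * (t * p) ^ d)))

theorem bot_val [Fact p.Prime] (s : Slow K E n) (t e : ℕ) : s.h t e (cnL true [] : Fm p) = 0 := by
  rw [h_cnL]
  have h1 : s.fl t e true ([] : List (Fm p)) = [] := rfl
  rw [h1]
  unfold Slow.gv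
  rw [if_pos rfl]
  have h2 : ∀ i, fam true ([] : List (Pt n → K)) i = 0 := fun i => rfl
  have hp : p - 1 ≠ 0 := by
    have := (Fact.out : p.Prime).two_le
    omega
  unfold hprod
  rw [Finset.prod_eq_one, sub_self]
  intro j _
  rw [Finset.sum_eq_zero (fun i _ => h2 i), zero_pow hp, sub_zero]

private theorem ASound_size_pos {p : ℕ} (A : Fm p) : 1 ≤ A.size := by
  rw [← subs_length]
  exact List.length_pos_of_mem (subs_self A)

private theorem ASound_sysC {p : ℕ} {S : List (Rule p)} {R : Rule p} (hR : R ∈ S) :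
    R.mvs.length + 3 * R.sqs.length ≤ sysC S := by
  unfold sysC
  have h1 : R.mvs.length + 3 * R.sqs.length ∈ S.map fun R : Rule p => R.mvs.length + 3 * R.sqs.length :=
    List.mem_map.2 ⟨R, hR, rfl⟩
  have h2 := List.single_le_sum (l := S.map fun R : Rule p => R.mvs.length + 3 * R.sqs.length) (fun x _ => Nat.zero_le x) _ h1
  omega

private theorem ASound_sysC_pos {p : ℕ} (S : List (Rule p)) : 1 ≤ sysC S := by
  unfold sysC
  omega


/-- The auxiliary gates and all subformulas of a refutation: a list of formulas. -/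
theorem gates_ex {p : ℕ} (S : List (Rule p)) (d : ℕ) (F : CNF) (π : List (Fm p)) (hπ : Refutes S d F π) :
    ∃ Λ : List (Fm p), Λ.length ≤ 3 * sysC S * psize π ∧ (∀ A ∈ π, ∀ B ∈ A.subs, B ∈ Λ) ∧
      (∀ k l, cnL k l ∈ Λ → ∀ A ∈ l, A.dep 0 ≤ d) ∧
      ∀ (i : ℕ) (h : i < π.length), (∃ C ∈ F, π[i] = clauseFm C) ∨
        ∃ R ∈ S, ∃ (u : ℕ → Fm p) (G : ℕ → List (Fm p)), R.concl.inst u G = [π[i]] ∧
          (∀ P ∈ R.prem, ∀ B ∈ P.inst u G, B ∈ π.take i) ∧ ∀ j ∈ R.sqs, ∀ k, cnL k (G j) ∈ Λ := by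
  obtain ⟨hd, hst, _⟩ := hπ
  have key : ∀ i : Fin π.length, ∃ aux : List (Fm p), aux.length ≤ 2 * sysC S ∧
      (∀ k l, cnL k l ∈ aux → ∀ A ∈ l, A.dep 0 ≤ d) ∧
      ((∃ C ∈ F, π[i] = clauseFm C) ∨
        ∃ R ∈ S, ∃ (u : ℕ → Fm p) (G : ℕ → List (Fm p)), R.concl.inst u G = [π[i]] ∧
          (∀ P ∈ R.prem, ∀ B ∈ P.inst u G, B ∈ π.take i) ∧ ∀ j ∈ R.sqs, ∀ k, cnL k (G j) ∈ aux) := by
    intro i
    have hi : π[i] ∈ π := List.getElem_mem i.2
    rcases hst i i.2 with h | ⟨R, hR, u, G, h1, h2⟩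
    · exact ⟨[], Nat.zero_le _, fun k l h' => absurd h' List.not_mem_nil, Or.inl h⟩
    · refine ⟨R.sqs.flatMap fun j => [cnL true (G j), cnL false (G j)], ?_, ?_, Or.inr ⟨R, hR, u, G, h1, h2, ?_⟩⟩
      · have h3 := ASound_sysC hR
        rw [List.length_flatMap]
        simp only [List.length_cons, List.length_nil, List.map_const', List.sum_replicate, smul_eq_mul]
        omega
      · intro k l h' A hA
        rw [List.mem_flatMap] at h'
        obtain ⟨j, hj, h'⟩ := h'
        have hl : l = G j := by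
          simp only [List.mem_cons, List.not_mem_nil, or_false] at h'
          rcases h' with h' | h'
          · exact (cnL_inj h').2
          · exact (cnL_inj h').2
        rw [hl] at hA
        unfold Rule.sqs at hj
        rw [List.mem_append] at hj
        rcases hj with hj | hj
        · obtain ⟨B, hB, hAB⟩ := sqs_sub u G R.concl hj hA
          rw [h1, List.mem_singleton] at hB
          rw [hB] at hAB
          exact (dep_subs hAB).trans (hd _ hi)
        · rw [List.mem_flatten] at hj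
          obtain ⟨L, hL, hj⟩ := hj
          rw [List.mem_map] at hL
          obtain ⟨P, hP, rfl⟩ := hL
          obtain ⟨B, hB, hAB⟩ := sqs_sub u G P hj hA
          exact (dep_subs hAB).trans (hd _ (List.mem_of_mem_take (h2 P hP B hB)))
      · intro j hj k
        rw [List.mem_flatMap]
        refine ⟨j, hj, ?_⟩
        cases k <;> simp
  choose aux ha1 ha2 ha3 using key
  refine ⟨(π.map Fm.subs).flatten ++ (List.ofFn aux).flatten, ?_, ?_, ?_, ?_⟩
  · have hsz : π.length ≤ psize π := by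
      unfold psize
      have h1 := List.length_le_sum_of_one_le (π.map Fm.size) (by
        intro i hi
        rw [List.mem_map] at hi
        obtain ⟨A, _, rfl⟩ := hi
        exact ASound_size_pos A)
      rw [List.length_map] at h1
      exact h1
    have h1 : ((π.map Fm.subs).flatten).length = psize π := by
      unfold psize
      rw [List.length_flatten, List.map_map]
      congr 1
      refine List.map_congr_left fun A _ => ?_
      exact subs_length A
    have h2 : ((List.ofFn aux).flatten).length ≤ π.length * (2 * sysC S) := by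
      rw [List.length_flatten, List.map_ofFn, List.sum_ofFn]
      refine (Finset.sum_le_card_nsmul Finset.univ _ (2 * sysC S) fun i _ => ha1 i).trans ?_
      rw [Finset.card_univ, Fintype.card_fin, smul_eq_mul]
    rw [List.length_append, h1]
    have h3 : π.length * (2 * sysC S) ≤ psize π * (2 * sysC S) := Nat.mul_le_mul_right _ hsz
    have h4 : psize π ≤ psize π * sysC S := Nat.le_mul_of_pos_right _ (ASound_sysC_pos S)
    have h5 : 3 * sysC S * psize π = psize π * sysC S + psize π * (2 * sysC S) := by ring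
    omega
  · intro A hA B hB
    rw [List.mem_append]
    left
    exact List.mem_flatten.2 ⟨A.subs, List.mem_map.2 ⟨A, hA, rfl⟩, hB⟩
  · intro k l h' A hA
    rw [List.mem_append] at h'
    rcases h' with h' | h'
    · rw [List.mem_flatten] at h'
      obtain ⟨L, hL, h'⟩ := h'
      rw [List.mem_map] at hL
      obtain ⟨B, hB, rfl⟩ := hL
      exact (dep_subs (subs_trans h' (subs_mem_cnL hA))).trans (hd _ hB)
    · rw [List.mem_flatten] at h'
      obtain ⟨L, hL, h'⟩ := h'
      rw [List.mem_ofFn] at hL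
      obtain ⟨i, rfl⟩ := hL
      exact ha2 i k l h' A hA
  · intro i h
    rcases ha3 ⟨i, h⟩ with h' | ⟨R, hR, u, G, h1, h2, h3⟩
    · exact Or.inl h'
    · refine Or.inr ⟨R, hR, u, G, h1, h2, fun j hj k => ?_⟩
      rw [List.mem_append]
      right
      exact List.mem_flatten.2 ⟨aux ⟨i, h⟩, List.mem_ofFn.2 ⟨⟨i, h⟩, rfl⟩, h3 j hj k⟩

private theorem ASound_TA [Fact p.Prime] (S : List (Rule p)) {t d : ℕ} (ht : 1 ≤ t) :
    p * (t * (p * (t * p) ^ d)) ≤ TA S t d ∧ 1 ≤ (t * p) ^ d ∧ 4 * (t * p) ^ d ≤ p * (t * (p * (t * p) ^ d)) := by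
  have hp := (Fact.out : p.Prime).two_le
  refine ⟨?_, one_le_e ht, ?_⟩
  · unfold TA
    exact Nat.le_mul_of_pos_left _ (ASound_sysC_pos S)
  · calc 4 * (t * p) ^ d = 2 * (1 * (2 * (t * p) ^ d)) := by ring
      _ ≤ p * (t * (p * (t * p) ^ d)) :=
        Nat.mul_le_mul hp (Nat.mul_le_mul ht (Nat.mul_le_mul_right _ hp))


/-- All lines have value 1 on a vector which respects all gates. -/
theorem lines_ok [Fact p.Prime] [CharP K p] (s : Slow K E n) {t e d : ℕ} (ht : 1 ≤ t) {f : E} (hf : f ∈ s.M 0)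
    (S : List (Rule p)) (hS : ∀ R ∈ S, R.Sound) (F : CNF) (W : ℕ) (hF : ∀ C ∈ F, C.length ≤ W)
    (hF' : ∀ C ∈ F, C.foldr s.lit f = 0) (π : List (Fm p)) (hd : ∀ A ∈ π, A.dep 0 ≤ d)
    (Λ : List (Fm p)) (h1 : ∀ A ∈ π, ∀ B ∈ A.subs, B ∈ Λ) (hR : ∀ B ∈ Λ, s.Resp t e f B)
    (h2 : ∀ (i : ℕ) (h : i < π.length), (∃ C ∈ F, π[i] = clauseFm C) ∨
        ∃ R ∈ S, ∃ (u : ℕ → Fm p) (G : ℕ → List (Fm p)), R.concl.inst u G = [π[i]] ∧
          (∀ P ∈ R.prem, ∀ B ∈ P.inst u G, B ∈ π.take i) ∧ ∀ j ∈ R.sqs, ∀ k, cnL k (G j) ∈ Λ)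
    (hL : 4 * TA S t d + W ≤ s.L) : ∀ A ∈ π, s.Z f (1 - s.h t e A) := by
  obtain ⟨hT1, hT2, hT3⟩ := ASound_TA (p := p) S (d := d) ht
  have hOk : ∀ A ∈ π, s.Ok t e d f A := fun A hA B hB => ⟨hR B (h1 A hA B hB), (dep_subs hB).trans (hd A hA)⟩
  have key : ∀ (i : ℕ) (h : i < π.length), s.Z f (1 - s.h t e π[i]) := by
    intro i
    induction i using Nat.strong_induction_on with
    | _ i ih =>
      intro h
      have hi : π[i] ∈ π := List.getElem_mem h
      rcases h2 i h with ⟨C, hC, hCi⟩ | ⟨R, hRS, u, G, h3, h4, h5⟩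
      · rw [hCi]
        rw [hCi] at hi
        refine clause_ok (T := (t * p) ^ d) s hf C (hF' C hC) (hR _ (h1 _ hi _ (subs_self _))) (deg_h s e ht (hd _ hi)) ?_
        have := hF C hC
        omega
      · have hc : ∀ A ∈ R.concl.inst u G, s.Ok t e d f A := by
          intro A hA
          rw [h3, List.mem_singleton] at hA
          rw [hA]
          exact hOk _ hi
        have hsc := ASound_sysC hRS
        refine rule_ok (T := TA S t d) s ht hf R (hS R hRS) u G
          (fun P hP A hA => hOk _ (List.mem_of_mem_take (h4 P hP A hA))) hc (fun j hj k => hR _ (h5 j hj k)) ?_ ?_ (by omega) ?_ _ ?_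
        · unfold TA
          exact Nat.mul_le_mul_right _ hsc
        · have h6 : t * (p * (t * p) ^ d) ≤ p * (t * (p * (t * p) ^ d)) :=
            Nat.le_mul_of_pos_left _ (Fact.out : p.Prime).pos
          omega
        · intro P hP A hA
          have h6 := h4 P hP A hA
          rw [List.mem_take_iff_getElem] at h6
          obtain ⟨j, hj, rfl⟩ := h6
          exact ih j (by omega) (by omega)
        · rw [h3]
          exact List.mem_singleton.2 rfl
  intro A hA
  obtain ⟨i, hi, rfl⟩ := List.mem_iff_getElem.1 hA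
  exact key i hi


theorem main_A (p : ℕ) [Fact p.Prime] (S : List (Rule p)) (hS : ∀ R ∈ S, R.Sound) (d n L A t W : ℕ) (ht : 1 ≤ t) (F : CNF)
    (hF : ∀ C ∈ F, C.length ≤ W) (hs : HasSlow p n F L A) (hL : 4 * TA S t d + W ≤ L) (π : List (Fm p)) (hπ : Refutes S d F π) :
    3 ^ t ≤ 3 * sysC S * psize π * (2 ^ t * A) := by
  obtain ⟨K, _, _, E, _, _, _, s, hsL, h0, hM, hcl⟩ := hs
  subst hsL
  obtain ⟨hT1, hT2, hT3⟩ := ASound_TA (p := p) S (d := d) ht
  by_contra hlt
  rw [not_le] at hlt
  obtain ⟨Λ, hlen, hsub, hdep, hdata⟩ := gates_ex S d F π hπ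
  have hp := (Fact.out : p.Prime).two_le
  have hte : p * (t * (p * (t * p) ^ d)) ≤ s.L := by omega
  have h7 : t * (t * p) ^ d ≤ p * (t * (p * (t * p) ^ d)) := by
    calc t * (t * p) ^ d = 1 * (t * (1 * (t * p) ^ d)) := by ring
      _ ≤ p * (t * (p * (t * p) ^ d)) :=
        Nat.mul_le_mul (by omega) (Nat.mul_le_mul_left _ (Nat.mul_le_mul_right _ (by omega)))
  have h8 : (t + 4) * (p * (t * p) ^ d) ≤ 4 * (p * (t * (p * (t * p) ^ d))) := by
    have h9 : (t + 4) * (p * (t * p) ^ d) ≤ (4 * (p * t)) * (p * (t * p) ^ d) := by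
      refine Nat.mul_le_mul_right _ ?_
      have h10 : 2 * t ≤ p * t := Nat.mul_le_mul_right _ hp
      omega
    refine h9.trans (le_of_eq ?_)
    ring
  have hfin : Module.finrank K (s.M (t * (t * p) ^ d)) ≤ A * Module.finrank K (s.M 0) :=
    (Submodule.finrank_mono (M_le s (by omega) le_rfl)).trans hM
  obtain ⟨f, hf, hf0, hfR⟩ := pick s (t := t) (e := (t * p) ^ d) Λ (fun k l h => deg_fl s _ ht (hdep k l h) k) (by omega) (by
    calc Λ.length * 2 ^ t * Module.finrank K (s.M (t * (t * p) ^ d))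
        ≤ (3 * sysC S * psize π) * 2 ^ t * (A * Module.finrank K (s.M 0)) :=
          Nat.mul_le_mul (Nat.mul_le_mul_right _ hlen) hfin
      _ = 3 * sysC S * psize π * (2 ^ t * A) * Module.finrank K (s.M 0) := by ring
      _ < 3 ^ t * Module.finrank K (s.M 0) := Nat.mul_lt_mul_of_pos_right hlt h0)
  have hlines := lines_ok (e := (t * p) ^ d) s ht hf S hS F W hF (fun C hC => hcl C hC 0 (by have := hF C hC; omega) f hf) π hπ.1 Λ
    hsub hfR hdata hL
  have h11 := hlines _ hπ.2.2
  rw [bot_val, sub_zero] at h11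
  exact hf0 (Z_one s h11)


end ACpFrege
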