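import Pool.Agent.H98.AF.ASound

/-!
Row FFOut: Theorem A with one constant (uniform in the depth).
PROOF. K := 4 * sysC S + W. `4 * TA S t d + W ≤ K * (p*t)^(d+2)`: `TA = sysC S * (p * (t * (p * (t*p)^d))) = sysC S * (p * (p*t)^(d+1))`, `p ≤ p*t`, and
`1 ≤ (p*t)^(d+2)`. If `psize π ≤ N` then `main_A` gives `3^t ≤ 3 * sysC S * N * (2^t * A) ≤ N * K * A * 2^t < 3^t`.
-/

set_option autoImplicit false
open Finset

namespace ACpFrege

/-- Output of Part A, uniform in the depth. -/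
def OutAU (p : ℕ) : Prop :=
  ∀ S : List (Rule p), (∀ R ∈ S, R.Sound) → ∀ W : ℕ, ∃ C : ℕ, ∀ (d n : ℕ) (F : CNF) (L A N t : ℕ), HasSlow p n F L A →
    (∀ D ∈ F, D.length ≤ W ∧ ∀ l ∈ D, l.1 < n) → 1 ≤ t → C * (p * t) ^ (d + 2) ≤ L → N * C * A * 2 ^ t < 3 ^ t →
    ∀ π : List (Fm p), Refutes S d F π → N < psize π

theorem outAU (p : ℕ) [Fact p.Prime] : OutAU p := by
  intro S hS W
  refine ⟨4 * sysC S + W, ?_⟩
  intro d n F L A N t hs hF ht hL hN π hπ
  by_contra hlt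
  rw [not_lt] at hlt
  have hp := (Fact.out : p.Prime).two_le
  have h1 : TA S t d ≤ sysC S * (p * t) ^ (d + 2) := by
    have e1 : TA S t d = sysC S * (p * (p * t) ^ (d + 1)) := by
      unfold TA
      rw [pow_succ, mul_comm t p]
      ring
    rw [e1, pow_succ (p * t) (d + 1), mul_comm ((p * t) ^ (d + 1)) (p * t)]
    exact Nat.mul_le_mul_left _ (Nat.mul_le_mul_right _ (Nat.le_mul_of_pos_right _ (by omega)))
  have h2 : 1 ≤ (p * t) ^ (d + 2) := Nat.one_le_pow _ _ (Nat.mul_pos (by omega) (by omega))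
  have h3 : 4 * TA S t d + W ≤ L := by
    refine le_trans ?_ hL
    have h4 : W ≤ W * (p * t) ^ (d + 2) := Nat.le_mul_of_pos_right _ h2
    have e2 : (4 * sysC S + W) * (p * t) ^ (d + 2) = 4 * (sysC S * (p * t) ^ (d + 2)) + W * (p * t) ^ (d + 2) := by ring
    omega
  have h5 := main_A p S hS d n L A t W ht F (fun C hC => (hF C hC).1) hs h3 π hπ
  have h6 : 3 * sysC S * psize π * (2 ^ t * A) ≤ N * (4 * sysC S + W) * A * 2 ^ t := by
    calc 3 * sysC S * psize π * (2 ^ t * A) ≤ (4 * sysC S + W) * N * (2 ^ t * A) :=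
          Nat.mul_le_mul_right _ (Nat.mul_le_mul (by omega) hlt)
      _ = N * (4 * sysC S + W) * A * 2 ^ t := by ring
  omega

end ACpFrege
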