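import Pool.Agent.H98.AF.ADeg

/-!
Row FFDet: functions determined by few prime-field-valued functions of low degree have low degree.
PROOFS. `det_dg` (list `U` of functions; write `U.get i`, `i : Fin U.length`): for `z : Fin U.length → ZMod p` put
`ind z := ∏_i (1 - (U.get i - (z i : K))^(p-1))` (`((z i).val : K)`), an indicator of `{x | ∀ i, U.get i x = z i}` (`pv_pow` with the integer
`m - (z i).val`); degree `≤ U.length * (p * δ)`. Then `g = Σ_z (value z) • ind z`, `value z := g x₀` for some `x₀` with `U.get i x₀ = z i` for all `i`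
(choice), 0 if there is none: at a point `x` exactly one `z` contributes, `z i :=` the class of `m` where `U.get i x = m`.
(Different `z` give different values in `K`: `ZMod.castHom`/`ZMod.cast` injective: `((a.val : ℕ) : K) = ((b.val : ℕ) : K) → a = b`, by
`CharP.cast_eq_iff_mod_eq`.)
Closure properties of `Dt`: immediate from the definition.
-/

set_option autoImplicit false
open Finset

namespace ACpFrege

variable {K : Type} [Field K] {n : ℕ} {p : ℕ}

theorem det_dg [Fact p.Prime] [CharP K p] {δ : ℕ} (U : List (Pt n → K)) (hv : ∀ u ∈ U, ∀ x, ∃ m : ℕ, u x = (m : K))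
    (hd : ∀ u ∈ U, u ∈ Dg K n δ) {g : Pt n → K} (hg : Dt U g) : g ∈ Dg K n (U.length * (p * δ)) := by
  classical
  have hp : 1 < p := (Fact.out : p.Prime).one_lt
  set F : (Fin U.length → ZMod p) → Fin U.length → Pt n → K := fun z i =>
    1 - (U.get i - fun _ => (((z i).val : ℕ) : K)) ^ (p - 1) with hF
  have hmem : ∀ i : Fin U.length, U.get i ∈ U := fun i => List.get_mem U i
  have hFd : ∀ z i, F z i ∈ Dg K n (p * δ) := by
    intro z i
    refine Submodule.sub_mem _ (Dg_one _) (Dg_mono ?_ (Dg_pow (Submodule.sub_mem _ (hd _ (hmem i)) (Dg_const δ _)) (p - 1)))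
    exact Nat.mul_le_mul_right δ (by omega)
  have hprod : ∀ z, (∏ i, F z i) ∈ Dg K n (U.length * (p * δ)) := by
    intro z
    have h := Dg_prod (Finset.univ : Finset (Fin U.length)) (F z) (a := p * δ) fun i _ => hFd z i
    rwa [Finset.card_univ, Fintype.card_fin] at h
  choose! m hm using fun (i : Fin U.length) (x : Pt n) => hv _ (hmem i) x
  have hcast : ∀ a : ℕ, ((((a : ZMod p)).val : ℕ) : K) = (a : K) := by
    intro a
    rw [CharP.natCast_eq_natCast K p, ZMod.val_natCast]
    exact Nat.mod_modEq a p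
  have hval : ∀ (z : Fin U.length → ZMod p) (x : Pt n),
      (∏ i, F z i) x = if z = (fun i => ((m i x : ℕ) : ZMod p)) then 1 else 0 := by
    intro z x
    rw [Finset.prod_apply]
    by_cases h : z = (fun i => ((m i x : ℕ) : ZMod p))
    · rw [if_pos h]
      refine Finset.prod_eq_one fun i _ => ?_
      have h1 : U.get i x - (((z i).val : ℕ) : K) = 0 := by
        rw [h, hcast, hm i x, sub_self]
      show 1 - (U.get i x - (((z i).val : ℕ) : K)) ^ (p - 1) = 1
      rw [h1, zero_pow (by omega), sub_zero]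
    · rw [if_neg h]
      obtain ⟨i, hi⟩ := Function.ne_iff.1 h
      refine Finset.prod_eq_zero (Finset.mem_univ i) ?_
      show 1 - (U.get i x - (((z i).val : ℕ) : K)) ^ (p - 1) = 0
      have h2 : U.get i x - (((z i).val : ℕ) : K) = (((m i x : ℤ) - ((z i).val : ℤ) : ℤ) : K) := by
        rw [hm i x]; push_cast; ring
      rcases pv_pow (K := K) (p := p) ((m i x : ℤ) - ((z i).val : ℤ)) with h3 | h3
      · exfalso
        apply hi
        have h4 : ((m i x : ℕ) : K) = (((z i).val : ℕ) : K) := by
          have h5 := h3.1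
          push_cast at h5
          exact sub_eq_zero.1 h5
        rw [CharP.natCast_eq_natCast K p] at h4
        have h5 : ((m i x : ℕ) : ZMod p) = (((z i).val : ℕ) : ZMod p) := (ZMod.natCast_eq_natCast_iff _ _ _).2 h4
        show z i = ((m i x : ℕ) : ZMod p)
        rw [h5, ZMod.natCast_zmod_val]
      · rw [h2, h3.2, sub_self]
  have hg' : g = ∑ z : Fin U.length → ZMod p,
      (if h : ∃ y : Pt n, ∀ i, z i = ((m i y : ℕ) : ZMod p) then g h.choose else 0) • (∏ i, F z i) := by
    funext x
    rw [Finset.sum_apply]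
    simp only [Pi.smul_apply, hval, smul_eq_mul, mul_ite, mul_one, mul_zero]
    rw [Finset.sum_ite_eq' Finset.univ (fun i => ((m i x : ℕ) : ZMod p)), if_pos (Finset.mem_univ _)]
    have hex : ∃ y : Pt n, ∀ i, (fun i => ((m i x : ℕ) : ZMod p)) i = ((m i y : ℕ) : ZMod p) := ⟨x, fun i => rfl⟩
    rw [dif_pos hex]
    refine hg _ _ fun u hu => ?_
    obtain ⟨i, rfl⟩ := List.mem_iff_get.1 hu
    have h1 := hex.choose_spec i
    rw [hm i x, hm i hex.choose, CharP.natCast_eq_natCast K p]
    exact (ZMod.natCast_eq_natCast_iff _ _ _).1 h1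
  rw [hg']
  exact Submodule.sum_mem _ fun z _ => Submodule.smul_mem _ _ (hprod z)

theorem Dt_mem {U : List (Pt n → K)} {g : Pt n → K} (h : g ∈ U) : Dt U g := by
  intro x y hxy
  exact hxy g h

theorem Dt_add {U : List (Pt n → K)} {g h : Pt n → K} (hg : Dt U g) (hh : Dt U h) : Dt U (g + h) := by
  intro x y hxy
  show g x + h x = g y + h y
  rw [hg x y hxy, hh x y hxy]

theorem Dt_sub {U : List (Pt n → K)} {g h : Pt n → K} (hg : Dt U g) (hh : Dt U h) : Dt U (g - h) := by
  intro x y hxy
  show g x - h x = g y - h y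
  rw [hg x y hxy, hh x y hxy]

theorem Dt_mul {U : List (Pt n → K)} {g h : Pt n → K} (hg : Dt U g) (hh : Dt U h) : Dt U (g * h) := by
  intro x y hxy
  show g x * h x = g y * h y
  rw [hg x y hxy, hh x y hxy]

theorem Dt_pow {U : List (Pt n → K)} {g : Pt n → K} (hg : Dt U g) (k : ℕ) : Dt U (g ^ k) := by
  intro x y hxy
  show g x ^ k = g y ^ k
  rw [hg x y hxy]

theorem Dt_const {U : List (Pt n → K)} (c : K) : Dt U (fun _ => c) := by
  intro x y _
  rfl

theorem Dt_one {U : List (Pt n → K)} : Dt U (1 : Pt n → K) := by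
  intro x y _
  rfl

end ACpFrege
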