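import Pool.Agent.H98.AF.SDefs

/-!
Row FFReal: existence of a list of truth values with given data. `O k ∈ {0,1}` says whether `k` occurs.
PROOFS. `Rl_ex`: `m = (a : K)`, `l = (b : K)`.
 O true = 0, O false = 0: `[]` (then m = 0, l = m = 0).
 O true = 0, O false = 1: `List.replicate (b + p) false` (count true = 0 = m; length b + p, cast b since p = 0 in K; nonempty as p > 0).
 O true = 1, O false = 0: `List.replicate (a + p) true` (count = length = a + p, cast `m = l`).
 O true = 1, O false = 1: `List.replicate (a + p) true ++ List.replicate (b + (p - 1) * a + p) false`: count true = a + p,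
   length = a + p + b + (p-1) a + p = b + p a + 2 p, cast l.
`Rl_O`, `Rl_m`, `Rl_l`: projections. `Rl_ea`.
-/

set_option autoImplicit false
open Finset

namespace ACpFrege

variable {K : Type} [Field K] {p : ℕ}

theorem Rl_ex [Fact p.Prime] [CharP K p] (O : Bool → K) (hO : ∀ k, O k = 0 ∨ O k = 1) (a b : ℕ) (h1 : O true = 0 → (a : K) = 0)
    (h2 : O false = 0 → (b : K) = a) : ∃ w, Rl O (a : K) (b : K) w := by
  have hp : (p : K) = 0 := CharP.cast_eq_zero K p
  have hp1 : 0 < p := (Fact.out : p.Prime).pos
  rcases hO true with ht | ht
  · have ha := h1 ht
    rcases hO false with hf | hf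
    · refine ⟨[], ?_, ?_, ?_⟩
      · intro k; cases k <;> simp [ht, hf]
      · simp [ha]
      · simp [h2 hf, ha]
    · refine ⟨List.replicate (b + p) false, ?_, ?_, ?_⟩
      · intro k
        cases k
        · simp [hf, List.mem_replicate]; omega
        · simp [ht, List.mem_replicate]
      · simp [List.count_replicate, ha]
      · simp [hp]
  · rcases hO false with hf | hf
    · refine ⟨List.replicate (a + p) true, ?_, ?_, ?_⟩
      · intro k
        cases k
        · simp [hf, List.mem_replicate]
        · simp [ht, List.mem_replicate]; omega
      · simp [List.count_replicate, hp]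
      · simp [hp, h2 hf]
    · refine ⟨List.replicate (a + p) true ++ List.replicate (b + (p - 1) * a + p) false, ?_, ?_, ?_⟩
      · intro k
        cases k
        · simp [hf, List.mem_append, List.mem_replicate]; omega
        · simp [ht, List.mem_append, List.mem_replicate]; omega
      · simp [List.count_append, List.count_replicate, hp]
      · have : (a + p) + (b + (p - 1) * a + p) = b + p * a + 2 * p := by
          obtain ⟨r, rfl⟩ : ∃ r, p = r + 1 := ⟨p - 1, by omega⟩
          simp only [Nat.add_sub_cancel]
          ring
        rw [List.length_append, List.length_replicate, List.length_replicate, this]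
        push_cast
        rw [hp]; ring

open Classical in
theorem Rl_ea {O : Bool → K} (hO : ∀ k, O k = 0 ∨ O k = 1) {m l : K} {w : List Bool} (h : Rl O m l w) (k : Bool) :
    (if k ∈ w then (1 : K) else 0) = O k := by
  have := h.1 k
  rcases hO k with h0 | h0
  · rw [if_neg (fun hk => (this.1 hk) h0), h0]
  · rw [if_pos (this.2 (by rw [h0]; exact one_ne_zero)), h0]

end ACpFrege
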