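import Pool.Agent.H65.AF.ADefs

/-!
helper98 (project MP_28250c_FF, Part A, A4-A7): definitions. `pl k g` is `g` (`k = true`) or `1 - g` (`k = false`); `Fm.subs` lists the
subformulas; `Slow.fl` the flattened members of a disjunction (`k = true`) / conjunction (`k = false`) of a list; `Sch.mvs`,
`Sch.sqs` the metavariables of a scheme; `Ec`, `El`, `Ea`: number of true members, length, and occurrence of `k` among the values
of a scheme, as functions on the cube; `Claim`: the values of the instance of a scheme agree with them on the vector `f`.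
-/

set_option autoImplicit false
open Finset

namespace ACpFrege

variable {K : Type} [Field K] {E : Type} [AddCommGroup E] [Module K E] {n : ℕ}

/-- `g` for `k = true`, `1 - g` for `k = false`. -/
def pl (k : Bool) (g : Pt n → K) : Pt n → K := if k then g else 1 - g

/-- The subformulas of a formula (with repetitions). -/
def Fm.subs {p : ℕ} : Fm p → List (Fm p)
  | .var x => [.var x]
  | .neg A => .neg A :: A.subs
  | .cn k m A => .cn k m A :: (List.ofFn fun i => (A i).subs).flatten
  | .md r m A => .md r m A :: (List.ofFn fun i => (A i).subs).flatten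

/-- The code of a connective in `Fm.dep`: 2 for disjunctions, 3 for conjunctions. -/
abbrev cd (k : Bool) : ℕ := if k then 2 else 3

/-- The flattened members (values) of the disjunction or conjunction of the list `l`. -/
noncomputable def Slow.fl (s : Slow K E n) {p : ℕ} (t e : ℕ) (k : Bool) (l : List (Fm p)) : List (Pt n → K) :=
  (l.map (s.hl t e k)).flatten

/-- The formula metavariables of a scheme. -/
def Sch.mvs {p : ℕ} : Sch p → List ℕ
  | .mv i => [i]
  | .sq _ => []
  | .neg S => S.mvs
  | .cn _ _ S => (List.ofFn fun i => (S i).mvs).flatten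
  | .md _ _ S => (List.ofFn fun i => (S i).mvs).flatten

/-- The sequence variables of a scheme. -/
def Sch.sqs {p : ℕ} : Sch p → List ℕ
  | .mv _ => []
  | .sq j => [j]
  | .neg S => S.sqs
  | .cn _ _ S => (List.ofFn fun i => (S i).sqs).flatten
  | .md _ _ S => (List.ofFn fun i => (S i).sqs).flatten

/-- All subformulas of `A` are respected by `f` and have depth at most `d`. -/
def Slow.Ok (s : Slow K E n) {p : ℕ} (t e d : ℕ) (f : E) (A : Fm p) : Prop := ∀ B ∈ A.subs, s.Resp t e f B ∧ B.dep 0 ≤ d

section
variable {p : ℕ} (v : Pt n → ℕ → Bool) (w : Pt n → ℕ → List Bool)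

/-- The number of true values of a scheme. -/
def Ec (K : Type) [Field K] {n : ℕ} {p : ℕ} (v : Pt n → ℕ → Bool) (w : Pt n → ℕ → List Bool) (S : Sch p) : Pt n → K :=
  fun x => (((S.ev (v x) (w x)).count true : ℕ) : K)

/-- The number of values of a scheme. -/
def El (K : Type) [Field K] {n : ℕ} {p : ℕ} (v : Pt n → ℕ → Bool) (w : Pt n → ℕ → List Bool) (S : Sch p) : Pt n → K :=
  fun x => (((S.ev (v x) (w x)).length : ℕ) : K)

/-- The indicator of: some value of the scheme is `k`. -/
def Ea (K : Type) [Field K] {n : ℕ} {p : ℕ} (v : Pt n → ℕ → Bool) (w : Pt n → ℕ → List Bool) (S : Sch p) (k : Bool) : Pt n → K :=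
  fun x => if k ∈ S.ev (v x) (w x) then 1 else 0

end

/-- The values of the members of the instance of the scheme `S` agree on `f` with the values of the scheme under `v`, `w`: number of
true members, number of members, occurrence of `k` (two directions). -/
def Slow.Claim (s : Slow K E n) {p : ℕ} (t e T : ℕ) (f : E) (u : ℕ → Fm p) (G : ℕ → List (Fm p)) (v : Pt n → ℕ → Bool)
    (w : Pt n → ℕ → List Bool) (S : Sch p) : Prop :=
  s.Z f (((S.inst u G).map (s.h t e)).sum - Ec K v w S) ∧
  s.Z f ((fun _ => (((S.inst u G).length : ℕ) : K)) - El K v w S) ∧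
  (∀ k, ∀ A ∈ S.inst u G, s.Z f ((1 - Ea K v w S k) * pl k (s.h t e A))) ∧
  (∀ k, ∀ P ∈ Dg K n T, (∀ A ∈ S.inst u G, s.Z f (P * pl k (s.h t e A))) → s.Z f (P * Ea K v w S k))

/-- The values `O k` (occurrence of `k`), `m` (number of true members), `l` (length) are realised by the list `w`. -/
def Rl {K : Type} [Field K] (O : Bool → K) (m l : K) (w : List Bool) : Prop :=
  (∀ k, (k ∈ w ↔ O k ≠ 0)) ∧ ((w.count true : ℕ) : K) = m ∧ ((w.length : ℕ) : K) = l

/-- The values of the sequence `l` of formulas: `O k` is the occurrence of `k`. -/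
noncomputable def Slow.Oq (s : Slow K E n) {p : ℕ} (t e : ℕ) (l : List (Fm p)) (k : Bool) : Pt n → K := pl k (s.h t e (cnL k l))

/-- The sum of the values of the sequence. -/
noncomputable def Slow.Mq (s : Slow K E n) {p : ℕ} (t e : ℕ) (l : List (Fm p)) : Pt n → K := (l.map (s.h t e)).sum

open Classical in
/-- The truth value of the metavariable `i` at the point `x`. -/
noncomputable def Slow.vv (s : Slow K E n) {p : ℕ} (t e : ℕ) (I : List ℕ) (u : ℕ → Fm p) (x : Pt n) (i : ℕ) : Bool :=
  if i ∈ I ∧ s.h t e (u i) x ≠ 0 then true else false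

open Classical in
/-- A list with the data `O`, `m`, `l`, if there is one. -/
noncomputable def rlw (O : Bool → K) (m l : K) : List Bool := if h : ∃ w, Rl O m l w then h.choose else []

open Classical in
/-- The truth values of the sequence variable `j` at the point `x`. -/
noncomputable def Slow.ww (s : Slow K E n) {p : ℕ} (t e : ℕ) (J : List ℕ) (G : ℕ → List (Fm p)) (x : Pt n) (j : ℕ) : List Bool :=
  if j ∈ J then rlw (fun k => s.Oq t e (G j) k x) (s.Mq t e (G j) x) (((G j).length : ℕ) : K) else []

/-- The base values of a rule instance. -/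
noncomputable def Slow.UU (s : Slow K E n) {p : ℕ} (t e : ℕ) (I J : List ℕ) (u : ℕ → Fm p) (G : ℕ → List (Fm p)) : List (Pt n → K) :=
  I.map (fun i => s.h t e (u i)) ++ (J.map (fun j => s.Oq t e (G j) true) ++ (J.map (fun j => s.Oq t e (G j) false) ++
    J.map (fun j => s.Mq t e (G j))))

/-- The function `g` is determined by the functions in `U`. -/
def Dt {K : Type} {n : ℕ} (U : List (Pt n → K)) (g : Pt n → K) : Prop := ∀ x y : Pt n, (∀ u ∈ U, u x = u y) → g x = g y

/-- The metavariables of a rule. -/
def Rule.mvs {p : ℕ} (R : Rule p) : List ℕ := R.concl.mvs ++ (R.prem.map Sch.mvs).flatten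

/-- The sequence variables of a rule. -/
def Rule.sqs {p : ℕ} (R : Rule p) : List ℕ := R.concl.sqs ++ (R.prem.map Sch.sqs).flatten

/-- A number depending only on the system: (an upper bound of) the number of base values of the instances of its rules. -/
def sysC {p : ℕ} (S : List (Rule p)) : ℕ := (S.map fun R => R.mvs.length + 3 * R.sqs.length).sum + 1

end ACpFrege
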