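import Pool.Agent.H98.AF.ADeg

/-!
Row FFComb: the value of a gate is a combination of its members with low degree coefficients.
PROOFS. `hprod_comb`: induction on `t`: `1 - hprod (t+1) = (1 - hprod t) + hprod t * q^(p-1)` (`Finset.prod_range_succ`), and
`q^(p-1) = q^(p-2) * q = Σ_(i ∈ I t) q^(p-2) * b i` (p ≥ 2); coefficient of `b i`, `i ∈ range r`: add `hprod t * q^(p-2)` if `i ∈ I t`. Degree
of the new part: `t*((p-1)*δ) + (p-2)*δ ≤ (t+1)*(p*δ)`. `gv_comb`: `pl_gv`, `fam_eq`; `sel` is `h.choose` with all `I j ⊆ range r`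
(part of `Good`) or constantly `∅`, so the hypothesis `hI` holds in both cases; turn the sum over `range l.length` into one over `Fin`
(`Finset.sum_range`).
`gv_mem_comb` is the form used later: if a property `Q` of functions (here: killing `f` after multiplication by something) is
additive and stable under multiplication by `Dg (t*(p*δ))`, then ... : it is stated as: for every additive `φ : (Pt n → K) → E` with
`φ (c * g) = 0` for all members `g` (polarised) and all `c ∈ Dg (t*(p*δ))` one has `φ (pl k (gv l)) = 0`.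
-/

set_option autoImplicit false
open Finset

namespace ACpFrege

variable {K : Type} [Field K] {E : Type} [AddCommGroup E] [Module K E] {n : ℕ} {p : ℕ}

theorem hprod_comb [Fact p.Prime] {t r δ : ℕ} (I : ℕ → Finset ℕ) (hI : ∀ j, I j ⊆ Finset.range r) (b : ℕ → Pt n → K)
    (hb : ∀ i, b i ∈ Dg K n δ) :
    ∃ c : ℕ → Pt n → K, (∀ i, c i ∈ Dg K n (t * (p * δ))) ∧ 1 - hprod p t I b = ∑ i ∈ Finset.range r, c i * b i := by
  classical
  have hp : 2 ≤ p := (Fact.out : p.Prime).two_le
  induction t with
  | zero =>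
      refine ⟨fun _ => 0, fun _ => Submodule.zero_mem _, ?_⟩
      simp [hprod]
  | succ t ih =>
      obtain ⟨c, hc, hsum⟩ := ih
      have hq : (∑ i ∈ I t, b i) ∈ Dg K n δ := Submodule.sum_mem _ fun i _ => hb i
      refine ⟨fun i => c i + if i ∈ I t then hprod p t I b * (∑ i ∈ I t, b i) ^ (p - 2) else 0, ?_, ?_⟩
      · intro i
        refine Submodule.add_mem _ (Dg_mono (by
          have : t * (p * δ) ≤ (t + 1) * (p * δ) := Nat.mul_le_mul_right _ (Nat.le_succ t)
          exact this) (hc i)) ?_
        by_cases hi : i ∈ I t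
        · rw [if_pos hi]
          refine Dg_mono ?_ (Dg_mul (hprod_dg' (p := p) (t := t) I b hb) (Dg_pow hq (p - 2)))
          have h1 : t * ((p - 1) * δ) ≤ t * (p * δ) := Nat.mul_le_mul_left _ (Nat.mul_le_mul_right _ (by omega))
          have h2 : (p - 2) * δ ≤ p * δ := Nat.mul_le_mul_right _ (by omega)
          have h3 : (t + 1) * (p * δ) = t * (p * δ) + p * δ := by ring
          omega
        · rw [if_neg hi]
          exact Submodule.zero_mem _
      · have h1 : hprod p (t + 1) I b = hprod p t I b * (1 - (∑ i ∈ I t, b i) ^ (p - 1)) := by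
          unfold hprod
          rw [Finset.prod_range_succ]
        have h2 : (∑ i ∈ I t, b i) ^ (p - 1) = (∑ i ∈ I t, b i) ^ (p - 2) * ∑ i ∈ I t, b i := by
          rw [← pow_succ]
          congr 1
          omega
        have h3 : 1 - hprod p (t + 1) I b = (1 - hprod p t I b) +
            hprod p t I b * (∑ i ∈ I t, b i) ^ (p - 2) * ∑ i ∈ I t, b i := by
          rw [h1, h2]
          ring
        rw [h3, hsum]
        have h4 : (∑ i ∈ I t, b i) = ∑ i ∈ Finset.range r, if i ∈ I t then b i else 0 := by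
          rw [← Finset.sum_filter, Finset.filter_mem_eq_inter, Finset.inter_eq_right.2 (hI t)]
        obtain ⟨w, hw⟩ : ∃ w, w = hprod p t I b * (∑ i ∈ I t, b i) ^ (p - 2) := ⟨_, rfl⟩
        rw [← hw, h4, Finset.mul_sum, ← Finset.sum_add_distrib]
        refine Finset.sum_congr rfl fun i _ => ?_
        change c i * b i + w * (if i ∈ I t then b i else 0) = (c i + if i ∈ I t then w else 0) * b i
        by_cases hi : i ∈ I t
        · rw [if_pos hi, if_pos hi]
          ring
        · rw [if_neg hi, if_neg hi]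
          ring

theorem gv_comb [Fact p.Prime] (s : Slow K E n) (t e : ℕ) {δ : ℕ} (k : Bool) (l : List (Pt n → K)) (hl : ∀ g ∈ l, g ∈ Dg K n δ) :
    ∃ c : ℕ → Pt n → K, (∀ i, c i ∈ Dg K n (t * (p * δ))) ∧
      pl k (s.gv p t e k l) = ∑ i : Fin l.length, c i * pl k (l.get i) := by
  have hI : ∀ j, s.sel p t e k l j ⊆ Finset.range l.length := by
    intro j
    unfold Slow.sel
    split_ifs with h
    · exact h.choose_spec.1 j
    · exact Finset.empty_subset _
  have hb : ∀ i, fam k l i ∈ Dg K n δ := by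
    intro i
    by_cases h : i < l.length
    · rw [fam_eq k l i h]
      exact pl_dg (hl _ (List.getElem_mem h))
    · have h0 : fam k l i = 0 := by
        unfold fam
        rw [dif_neg h]
      rw [h0]
      exact Submodule.zero_mem _
  obtain ⟨c, hc, hsum⟩ := hprod_comb (p := p) (t := t) (s.sel p t e k l) hI (fam k l) hb
  refine ⟨c, hc, ?_⟩
  rw [pl_gv, hsum, Finset.sum_range]
  refine Finset.sum_congr rfl fun i _ => ?_
  rw [fam_eq k l i i.2]
  rfl

theorem gv_mem_comb [Fact p.Prime] (s : Slow K E n) (t e : ℕ) {δ : ℕ} (k : Bool) (l : List (Pt n → K))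
    (hl : ∀ g ∈ l, g ∈ Dg K n δ) (φ : (Pt n → K) →+ E) (hφ : ∀ g ∈ l, ∀ c ∈ Dg K n (t * (p * δ)), φ (c * pl k g) = 0) :
    φ (pl k (s.gv p t e k l)) = 0 := by
  obtain ⟨c, hc, hsum⟩ := gv_comb (p := p) s t e k l hl
  rw [hsum, map_sum]
  exact Finset.sum_eq_zero fun i _ => hφ _ (List.get_mem l i) _ (hc i)

end ACpFrege
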