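import Pool.Agent.H98.AF.AComb
import Pool.Agent.H65.AF.AAct

/-!
Row FFCon: the congruence calculus for a fixed vector `f` of `M 0`, and the two rules for a gate.
`s.Z f P` means `act P f = 0`.
PROOFS. `Z_*`: linearity of `act`, and `act_mul` (with `j = 0`): `act (Q * P) f = act Q (act P f) = 0`.
`gate_mem`: A ∈ l. If `hl k A = [h A]` (`hl_cases`): `h A ∈ fl k l` and `resp_cnL`. Otherwise `A = cnL k l'`, `hl k A = fl k l'`,
`h A = gv k (fl k l')`: `gv_mem_comb` with `φ P := act ((1 - pl k (h (cnL k l))) * P) f` (additive in `P`): for a member `g` of `fl k l'`, `g ∈ fl k l`, so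
`resp_cnL` and `Z_mul` with the coefficient `c` (commute the products, `mul_comm`, `mul_left_comm`).
`gate_of_mem`: `h (cnL k l) = gv k (fl k l)`, `gv_mem_comb` with `φ Q := act (P * Q) f`; let `g ∈ fl k l`, say `g ∈ hl k A`, `A ∈ l`: claim
`Z f (P * pl k g)`, then multiply by `c`. If `hl k A = [h A]` it is `h`. If `A = cnL k l'`: `P * pl k g = P * ((1 - pl k (h A)) * pl k g) +
pl k g * (P * pl k (h A))`, the first is killed by `resp_cnL` for `A`, the second by hypothesis.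
Degrees: with `e0 := (t*p)^d` members are in `Dg e0`, `e0 ≤ T`, coefficients in `Dg (t*(p*e0)) ≤ Dg T`, values of the gates in `Dg T` (`deg_cnL`).
-/

set_option autoImplicit false
open Finset

namespace ACpFrege

variable {K : Type} [Field K] {E : Type} [AddCommGroup E] [Module K E] {n : ℕ} {p : ℕ}

theorem Z_zero (s : Slow K E n) (f : E) : s.Z f 0 := by
  unfold Slow.Z
  rw [act_zero]
  rfl

theorem Z_add (s : Slow K E n) {f : E} {P Q : Pt n → K} (hP : s.Z f P) (hQ : s.Z f Q) : s.Z f (P + Q) := by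
  unfold Slow.Z at *
  rw [act_add, LinearMap.add_apply, hP, hQ, add_zero]

theorem Z_sub (s : Slow K E n) {f : E} {P Q : Pt n → K} (hP : s.Z f P) (hQ : s.Z f Q) : s.Z f (P - Q) := by
  unfold Slow.Z at *
  rw [act_sub, LinearMap.sub_apply, hP, hQ, sub_zero]

theorem Z_neg (s : Slow K E n) {f : E} {P : Pt n → K} (hP : s.Z f P) : s.Z f (-P) := by
  unfold Slow.Z at *
  rw [act_neg, LinearMap.neg_apply, hP, neg_zero]

theorem Z_smul (s : Slow K E n) {f : E} {P : Pt n → K} (c : K) (hP : s.Z f P) : s.Z f (c • P) := by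
  unfold Slow.Z at *
  rw [act_smul, LinearMap.smul_apply, hP, smul_zero]

theorem Z_sum (s : Slow K E n) {f : E} {ι : Type} (J : Finset ι) (F : ι → Pt n → K) (h : ∀ i ∈ J, s.Z f (F i)) :
    s.Z f (∑ i ∈ J, F i) := by
  unfold Slow.Z at *
  rw [act_sum, LinearMap.sum_apply]
  exact Finset.sum_eq_zero h

theorem Z_lsum (s : Slow K E n) {f : E} (l : List (Pt n → K)) (h : ∀ P ∈ l, s.Z f P) : s.Z f l.sum := by
  induction l with
  | nil => exact Z_zero s f
  | cons P l ih =>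
    rw [List.sum_cons]
    exact Z_add s (h P List.mem_cons_self) (ih fun Q hQ => h Q (List.mem_cons_of_mem _ hQ))

theorem Z_mul (s : Slow K E n) {f : E} (hf : f ∈ s.M 0) {a b : ℕ} {P Q : Pt n → K} (hQ : Q ∈ Dg K n a) (hPd : P ∈ Dg K n b)
    (hP : s.Z f P) (h : a + b ≤ s.L) : s.Z f (Q * P) := by
  unfold Slow.Z at *
  rw [← act_mul s hf hQ hPd (by omega), hP, map_zero]

theorem Z_one (s : Slow K E n) {f : E} (h : s.Z f 1) : f = 0 := by
  unfold Slow.Z at h
  rw [act_one] at h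
  exact h

theorem one_le_e [Fact p.Prime] {t d : ℕ} (ht : 1 ≤ t) : 1 ≤ (t * p) ^ d :=
  Nat.one_le_pow _ _ (Nat.mul_pos ht (Fact.out : p.Prime).pos)

private theorem ACon_le [Fact p.Prime] {t d : ℕ} (ht : 1 ≤ t) : (t * p) ^ d ≤ t * (p * (t * p) ^ d) := by
  have h1 : 1 ≤ p := (Fact.out : p.Prime).one_lt.le
  calc (t * p) ^ d = 1 * (1 * (t * p) ^ d) := by ring
    _ ≤ t * (p * (t * p) ^ d) := Nat.mul_le_mul ht (Nat.mul_le_mul_right _ h1)

/-- The additive map `Q ↦ act (P * Q) f`. -/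
private noncomputable def ACon_phi (s : Slow K E n) (f : E) (P : Pt n → K) : (Pt n → K) →+ E where
  toFun Q := s.act (P * Q) f
  map_zero' := by rw [mul_zero, act_zero]; rfl
  map_add' Q R := by rw [mul_add, act_add, LinearMap.add_apply]

theorem gate_mem [Fact p.Prime] [CharP K p] (s : Slow K E n) {t e d : ℕ} (ht : 1 ≤ t) {f : E} (hf : f ∈ s.M 0) {k : Bool}
    {l : List (Fm p)} (hl : ∀ A ∈ l, A.dep 0 ≤ d) (hR : s.Resp t e f (cnL k l)) {A : Fm p} (hA : A ∈ l)
    (hL : 3 * (t * (p * (t * p) ^ d)) ≤ s.L) : s.Z f ((1 - pl k (s.h t e (cnL k l))) * pl k (s.h t e A)) := by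
  rcases hl_cases s t e k A with h1 | ⟨l', rfl⟩
  · refine resp_cnL s t e f k l hR ((mem_fl s t e k l _).2 ⟨A, hA, ?_⟩)
    rw [h1]
    exact List.mem_singleton.2 rfl
  · have hle := ACon_le (p := p) (d := d) ht
    have hdeg : ∀ g ∈ s.fl t e k l', g ∈ Dg K n ((t * p) ^ d) := fun g hg =>
      deg_hl s e ht (hl _ hA) k g (by rw [hl_cnL]; exact hg)
    have hG : pl k (s.h t e (cnL k l)) ∈ Dg K n (t * (p * (t * p) ^ d)) := pl_dg (deg_cnL s e ht hl k)
    have hG' : 1 - pl k (s.h t e (cnL k l)) ∈ Dg K n (t * (p * (t * p) ^ d)) := Submodule.sub_mem _ (Dg_one _) hG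
    have key := gv_mem_comb (p := p) s t e k (s.fl t e k l') hdeg (ACon_phi s f (1 - pl k (s.h t e (cnL k l)))) (by
      intro g hg c hc
      have hgl : g ∈ s.fl t e k l := (mem_fl s t e k l g).2 ⟨_, hA, by rw [hl_cnL]; exact hg⟩
      have h2 := resp_cnL s t e f k l hR hgl
      have h3 : s.Z f (c * ((1 - pl k (s.h t e (cnL k l))) * pl k g)) :=
        Z_mul s hf hc (Dg_mul hG' (pl_dg (hdeg g hg))) h2 (by omega)
      have h4 : (1 - pl k (s.h t e (cnL k l))) * (c * pl k g) = c * ((1 - pl k (s.h t e (cnL k l))) * pl k g) := by ring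
      show s.act ((1 - pl k (s.h t e (cnL k l))) * (c * pl k g)) f = 0
      rw [h4]
      exact h3)
    rw [h_cnL s t e k l']
    exact key

theorem gate_of_mem [Fact p.Prime] [CharP K p] (s : Slow K E n) {t e d T : ℕ} (ht : 1 ≤ t) {f : E} (hf : f ∈ s.M 0) {k : Bool}
    {l : List (Fm p)} (hl : ∀ A ∈ l, A.dep 0 ≤ d) (hR : ∀ A ∈ l, s.Resp t e f A) {P : Pt n → K} (hP : P ∈ Dg K n T)
    (hT : t * (p * (t * p) ^ d) ≤ T) (hL : 4 * T ≤ s.L) (h : ∀ A ∈ l, s.Z f (P * pl k (s.h t e A))) :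
    s.Z f (P * pl k (s.h t e (cnL k l))) := by
  have hle := ACon_le (p := p) (d := d) ht
  have hdeg : ∀ g ∈ s.fl t e k l, g ∈ Dg K n ((t * p) ^ d) := deg_fl s e ht hl k
  have claim : ∀ g ∈ s.fl t e k l, s.Z f (P * pl k g) := by
    intro g hg
    obtain ⟨A, hA, hgA⟩ := (mem_fl s t e k l g).1 hg
    rcases hl_cases s t e k A with h1 | ⟨l', rfl⟩
    · rw [h1, List.mem_singleton] at hgA
      rw [hgA]
      exact h A hA
    · rw [hl_cnL] at hgA
      have hAd := deg_h s e ht (hl _ hA)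
      have h2 := resp_cnL s t e f k l' (hR _ hA) hgA
      have hg' := pl_dg (k := k) (hdeg g hg)
      have hA' := pl_dg (k := k) hAd
      have h3 : s.Z f (P * ((1 - pl k (s.h t e (cnL k l'))) * pl k g)) :=
        Z_mul s hf hP (Dg_mul (Submodule.sub_mem _ (Dg_one _) hA') hg') h2 (by omega)
      have h4 : s.Z f (pl k g * (P * pl k (s.h t e (cnL k l')))) :=
        Z_mul s hf hg' (Dg_mul hP hA') (h _ hA) (by omega)
      have h5 : P * pl k g = P * ((1 - pl k (s.h t e (cnL k l'))) * pl k g) + pl k g * (P * pl k (s.h t e (cnL k l'))) := by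
        ring
      rw [h5]
      exact Z_add s h3 h4
  have key := gv_mem_comb (p := p) s t e k (s.fl t e k l) hdeg (ACon_phi s f P) (by
    intro g hg c hc
    have h3 : s.Z f (c * (P * pl k g)) := Z_mul s hf hc (Dg_mul hP (pl_dg (hdeg g hg))) (claim g hg) (by omega)
    have h4 : P * (c * pl k g) = c * (P * pl k g) := by ring
    show s.act (P * (c * pl k g)) f = 0
    rw [h4]
    exact h3)
  rw [h_cnL s t e k l]
  exact key

end ACpFrege
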