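import Pool.Agent.H98.AF.AVal
import Pool.Agent.H65.AF.ACube

/-!
Degrees of the values (project MP_28250c_AF, Part A): the value of a formula of depth `d` has degree at most `(t * p) ^ d`.
Induction on the formula for two statements together: the value of `A` at a context `c` which does not continue the connective of
`A`, and the flattened members of `A` at the context of the connective.
-/

set_option autoImplicit false
open Finset

namespace ACpFrege

variable {K : Type} [Field K] {E : Type} [AddCommGroup E] [Module K E] {n : ℕ} {p : ℕ}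

theorem pl_dg {k : Bool} {a : ℕ} {g : Pt n → K} (h : g ∈ Dg K n a) : pl k g ∈ Dg K n a := by
  unfold pl
  split_ifs
  · exact h
  · exact (Dg K n a).sub_mem (Dg_one a) h

theorem listsum_dg {a : ℕ} (l : List (Pt n → K)) (h : ∀ g ∈ l, g ∈ Dg K n a) : l.sum ∈ Dg K n a :=
  list_sum_mem h

theorem hprod_dg' {t δ : ℕ} (I : ℕ → Finset ℕ) (b : ℕ → Pt n → K) (hb : ∀ i, b i ∈ Dg K n δ) :
    hprod p t I b ∈ Dg K n (t * ((p - 1) * δ)) := by
  unfold hprod
  have h := Dg_prod (K := K) (n := n) (Finset.range t) (a := (p - 1) * δ) (fun s => 1 - (∑ i ∈ I s, b i) ^ (p - 1))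
    (fun s _ => (Dg K n _).sub_mem (Dg_one _) (Dg_pow ((Dg K n δ).sum_mem fun i _ => hb i) (p - 1)))
  rwa [Finset.card_range] at h

private theorem ADeg_fam {δ : ℕ} (k : Bool) (l : List (Pt n → K)) (hl : ∀ g ∈ l, g ∈ Dg K n δ) (i : ℕ) :
    fam k l i ∈ Dg K n δ := by
  by_cases h : i < l.length
  · rw [fam_eq k l i h]
    exact pl_dg (hl _ (List.getElem_mem h))
  · unfold fam
    rw [dif_neg h]
    exact (Dg K n δ).zero_mem

theorem gv_dg (s : Slow K E n) (t e δ : ℕ) (k : Bool) (l : List (Pt n → K)) (hl : ∀ g ∈ l, g ∈ Dg K n δ) :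
    s.gv p t e k l ∈ Dg K n (t * ((p - 1) * δ)) := by
  have h := hprod_dg' (p := p) (t := t) (s.sel p t e k l) (fam k l) (ADeg_fam k l hl)
  unfold Slow.gv
  split_ifs
  · exact (Dg K n _).sub_mem (Dg_one _) h
  · exact h

private theorem ADeg_pos [Fact p.Prime] {t : ℕ} (ht : 1 ≤ t) : 1 ≤ t * p :=
  Nat.mul_pos ht (Fact.out : p.Prime).pos

private theorem ADeg_step [Fact p.Prime] {t D : ℕ} (hD : 1 ≤ D) : t * ((p - 1) * (t * p) ^ (D - 1)) ≤ (t * p) ^ D := by
  obtain ⟨D', rfl⟩ : ∃ D', D = D' + 1 := ⟨D - 1, by omega⟩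
  rw [Nat.add_sub_cancel, pow_succ]
  calc t * ((p - 1) * (t * p) ^ D') ≤ t * (p * (t * p) ^ D') :=
        Nat.mul_le_mul_left _ (Nat.mul_le_mul_right _ (Nat.sub_le _ _))
    _ = (t * p) ^ D' * (t * p) := by ring

private theorem ADeg_cd1 (k : Bool) : 1 ≠ cd k := by cases k <;> decide

private theorem ADeg_cd0 (k : Bool) : 0 ≠ cd k := by cases k <;> decide

private theorem ADeg_cd {k k' : Bool} (h : k' ≠ k) : cd k' ≠ cd k := by
  cases k <;> cases k' <;> first | exact absurd rfl h | decide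

theorem deg_all [Fact p.Prime] (s : Slow K E n) {t : ℕ} (e : ℕ) (ht : 1 ≤ t) (A : Fm p) :
    (∀ c : ℕ, (∀ k l, A = cnL k l → c ≠ cd k) → s.h t e A ∈ Dg K n ((t * p) ^ A.dep c)) ∧
      ∀ k, ∀ g ∈ s.hl t e k A, g ∈ Dg K n ((t * p) ^ A.dep (cd k)) := by
  have hB : 1 ≤ t * p := ADeg_pos ht
  revert A
  refine indL ?_ ?_ ?_ ?_
  · intro x
    have h1 : ∀ c : ℕ, s.h t e (.var x : Fm p) ∈ Dg K n ((t * p) ^ (Fm.var x : Fm p).dep c) := by
      intro c
      rw [h_var]
      by_cases hx : x < n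
      · have h2 : (fun a : Pt n => if h : x < n then (if a ⟨x, h⟩ then (1 : K) else 0) else 0) = mono K {⟨x, hx⟩} := by
          rw [mono_single]
          funext a
          rw [dif_pos hx]
        rw [h2]
        exact mono_mem _ (by rw [Finset.card_singleton]; exact Nat.one_le_pow _ _ hB)
      · have h2 : (fun a : Pt n => if h : x < n then (if a ⟨x, h⟩ then (1 : K) else 0) else 0) = 0 := by
          funext a
          rw [dif_neg hx]
          rfl
        rw [h2]
        exact (Dg K n _).zero_mem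
    refine ⟨fun c _ => h1 c, fun k g hg => ?_⟩
    rw [hl_var, List.mem_singleton] at hg
    rw [hg]
    exact h1 _
  · intro A ih
    have h1 : ∀ c : ℕ, 1 - s.h t e A ∈ Dg K n ((t * p) ^ (Fm.neg A).dep c) := by
      intro c
      refine (Dg K n _).sub_mem (Dg_one _) (Dg_mono ?_ (ih.1 1 fun k l _ => ADeg_cd1 k))
      rw [dep_neg]
      exact Nat.pow_le_pow_right hB (Nat.le_add_left _ _)
    refine ⟨fun c _ => ?_, fun k g hg => ?_⟩
    · rw [h_neg]
      exact h1 c
    · rw [hl_neg, List.mem_singleton] at hg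
      rw [hg]
      exact h1 _
  · intro k l ih
    have hmem : ∀ c : ℕ, c ≠ cd k → ∀ g ∈ s.fl t e k l, g ∈ Dg K n ((t * p) ^ ((cnL k l).dep c - 1)) := by
      intro c hc g hg
      obtain ⟨A, hA, hgA⟩ := (mem_fl s t e k l g).1 hg
      refine Dg_mono (Nat.pow_le_pow_right hB ?_) ((ih A hA).2 k g hgA)
      have h := dep_cnL_mem (k := k) hA c
      rw [if_neg hc] at h
      omega
    have h1 : ∀ c : ℕ, c ≠ cd k → s.h t e (cnL k l) ∈ Dg K n ((t * p) ^ (cnL k l).dep c) := by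
      intro c hc
      rw [h_cnL]
      refine Dg_mono (ADeg_step (D := (cnL k l).dep c) ?_) (gv_dg s t e _ k _ (hmem c hc))
      have h : (cnL k l).dep c = (if c = (if k then 2 else 3) then 0 else 1) +
          Finset.univ.sup fun i => (l.get i).dep (if k then 2 else 3) := rfl
      rw [h, if_neg hc]
      exact Nat.le_add_right _ _
    refine ⟨fun c hc => h1 c (hc k l rfl), fun k' g hg => ?_⟩
    by_cases hk : k' = k
    · subst hk
      rw [hl_cnL] at hg
      obtain ⟨A, hA, hgA⟩ := (mem_fl s t e k' l g).1 hg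
      refine Dg_mono (Nat.pow_le_pow_right hB ?_) ((ih A hA).2 k' g hgA)
      have h := dep_cnL_mem (k := k') hA (cd k')
      rwa [if_pos rfl, Nat.zero_add] at h
    · rcases hl_cases s t e k' (cnL k l) with h | ⟨l', h⟩
      · rw [h, List.mem_singleton] at hg
        rw [hg]
        exact h1 _ (ADeg_cd hk)
      · exact absurd (cnL_inj h).1.symm hk
  · intro r l ih
    have h1 : ∀ c : ℕ, s.h t e (mdL r l) ∈ Dg K n ((t * p) ^ (mdL r l).dep c) := by
      intro c
      rw [h_mdL]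
      have hD : 1 ≤ (mdL r l).dep c := by
        have h : (mdL r l).dep c = 1 + Finset.univ.sup fun i => (l.get i).dep 0 := rfl
        rw [h]
        exact Nat.le_add_right _ _
      have hs : (l.map (s.h t e)).sum ∈ Dg K n ((t * p) ^ ((mdL r l).dep c - 1)) := by
        refine listsum_dg _ fun g hg => ?_
        obtain ⟨A, hA, rfl⟩ := List.mem_map.1 hg
        refine Dg_mono (Nat.pow_le_pow_right hB ?_) ((ih A hA).1 0 fun k l _ => ADeg_cd0 k)
        have h := dep_mdL_mem (r := r) hA c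
        omega
      refine (Dg K n _).sub_mem (Dg_one _) (Dg_mono ?_ (Dg_pow ((Dg K n _).sub_mem hs (Dg_const _ _)) (p - 1)))
      refine le_trans ?_ (ADeg_step (p := p) (t := t) hD)
      exact Nat.le_mul_of_pos_left _ ht
    refine ⟨fun c _ => h1 c, fun k g hg => ?_⟩
    rcases hl_cases s t e k (mdL r l) with h | ⟨l', h⟩
    · rw [h, List.mem_singleton] at hg
      rw [hg]
      exact h1 _
    · exact absurd h (by simp [mdL, cnL])

theorem deg_h [Fact p.Prime] (s : Slow K E n) {t : ℕ} (e : ℕ) (ht : 1 ≤ t) {d : ℕ} {A : Fm p} (hd : A.dep 0 ≤ d) :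
    s.h t e A ∈ Dg K n ((t * p) ^ d) :=
  Dg_mono (Nat.pow_le_pow_right (ADeg_pos ht) hd) ((deg_all s e ht A).1 0 fun k _ _ => ADeg_cd0 k)

theorem deg_hl [Fact p.Prime] (s : Slow K E n) {t : ℕ} (e : ℕ) (ht : 1 ≤ t) {d : ℕ} {A : Fm p} (hd : A.dep 0 ≤ d) (k : Bool) :
    ∀ g ∈ s.hl t e k A, g ∈ Dg K n ((t * p) ^ d) := fun g hg =>
  Dg_mono (Nat.pow_le_pow_right (ADeg_pos ht) ((dep_le A _).trans hd)) ((deg_all s e ht A).2 k g hg)

theorem deg_fl [Fact p.Prime] (s : Slow K E n) {t : ℕ} (e : ℕ) (ht : 1 ≤ t) {d : ℕ} {l : List (Fm p)} (hd : ∀ A ∈ l, A.dep 0 ≤ d)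
    (k : Bool) : ∀ g ∈ s.fl t e k l, g ∈ Dg K n ((t * p) ^ d) := by
  intro g hg
  obtain ⟨A, hA, hgA⟩ := (mem_fl s t e k l g).1 hg
  exact deg_hl s e ht (hd A hA) k g hgA

/-- The disjunction/conjunction of a list of formulas of depth at most `d`. -/
theorem deg_cnL [Fact p.Prime] (s : Slow K E n) {t : ℕ} (e : ℕ) (ht : 1 ≤ t) {d : ℕ} {l : List (Fm p)} (hd : ∀ A ∈ l, A.dep 0 ≤ d)
    (k : Bool) : s.h t e (cnL k l) ∈ Dg K n (t * (p * (t * p) ^ d)) := by
  rw [h_cnL]
  exact Dg_mono (Nat.mul_le_mul_left _ (Nat.mul_le_mul_right _ (Nat.sub_le _ _))) (gv_dg s t e _ k _ (deg_fl s e ht hd k))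

end ACpFrege
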