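import Pool.Agent.H98.AF.SDefs

/-!
Row FFFm (60-150 lines): structure of formulas: list form of the connectives, subformulas, depth. No algebra.
PROOFS. `cn_eq`: with `l := List.ofFn A`, `l.length = m` (`List.length_ofFn`) and `l.get` is `A` after a cast: prove the general
statement `∀ m' (h : m' = m) (A : Fin m → Fm p) (A' : Fin m' → Fm p), (∀ i : Fin m', A' i = A (Fin.cast h i)) → Fm.cn k m A = Fm.cn k m' A'`
(`subst h`, funext) and use `List.get_ofFn`. `indL`: structural induction on `A` (`induction A`), rewrite with `cn_eq`, `md_eq`,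
`List.mem_ofFn`. `subs_cnL`, `subs_mdL`, `inst`: unfold, `List.ofFn` of `l.get` is `l` (`List.ofFn_get`), e.g. first prove
`(List.ofFn fun i => (l.get i).subs) = l.map Fm.subs` (`List.map_ofFn`, `List.ofFn_get`). `dep_cnL_mem`: `Finset.le_sup` at the index
of `A` (`List.mem_iff_get`). `dep_le`, `dep_le'`: cases on `A`, only the outer `if` depends on `c`.
`dep_subs`: induction on `A`; a member `A i` of `cn k m A` has `(A i).dep 0 ≤ (A i).dep (cd k) + 1 ≤ (cn k m A).dep 0`.
`subs_length`: induction, length of flatten of ofFn = sum.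
`sqs_sub`: structural induction on `S`: for `S = neg S'`: `B ∈ S'.inst`, `A ∈ B.subs` gives `neg B ∈ inst`, `A ∈ (neg B).subs`;
for `cn`: `B` is a member of the list, so `A ∈ (cnL k _).subs`. `mvs_sub` the same.
-/

set_option autoImplicit false
open Finset

namespace ACpFrege

variable {p : ℕ}

private theorem cn_aux (k : Bool) {m m' : ℕ} (h : m' = m) (A : Fin m → Fm p) (A' : Fin m' → Fm p)
    (hA : ∀ i : Fin m', A' i = A (Fin.cast h i)) : Fm.cn k m A = Fm.cn k m' A' := by
  subst h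
  congr 1
  funext i
  exact (hA i).symm

private theorem md_aux (r : ZMod p) {m m' : ℕ} (h : m' = m) (A : Fin m → Fm p) (A' : Fin m' → Fm p)
    (hA : ∀ i : Fin m', A' i = A (Fin.cast h i)) : Fm.md r m A = Fm.md r m' A' := by
  subst h
  congr 1
  funext i
  exact (hA i).symm

theorem cn_eq (k : Bool) (m : ℕ) (A : Fin m → Fm p) : Fm.cn k m A = cnL k (List.ofFn A) := by
  unfold cnL
  exact cn_aux k List.length_ofFn A _ fun i => List.get_ofFn A i

theorem md_eq (r : ZMod p) (m : ℕ) (A : Fin m → Fm p) : Fm.md r m A = mdL r (List.ofFn A) := by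
  unfold mdL
  exact md_aux r List.length_ofFn A _ fun i => List.get_ofFn A i

theorem cnL_inj {k k' : Bool} {l l' : List (Fm p)} (h : cnL k l = cnL k' l') : k = k' ∧ l = l' := by
  unfold cnL at h
  injection h with h1 h2 h3
  refine ⟨h1, ?_⟩
  apply List.ext_get h2
  intro n hn hn'
  have h4 : ∀ (m m' : ℕ) (hm : m = m') (f : Fin m → Fm p) (f' : Fin m' → Fm p), f ≍ f' → ∀ (i : ℕ) (hi : i < m) (hi' : i < m'),
      f ⟨i, hi⟩ = f' ⟨i, hi'⟩ := by
    intro m m' hm f f' hf i hi hi'
    subst hm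
    rw [eq_of_heq hf]
  exact h4 _ _ h2 _ _ h3 n hn hn'

theorem indL {P : Fm p → Prop} (hv : ∀ x, P (.var x)) (hn : ∀ A, P A → P (.neg A))
    (hc : ∀ (k : Bool) (l : List (Fm p)), (∀ A ∈ l, P A) → P (cnL k l))
    (hm : ∀ (r : ZMod p) (l : List (Fm p)), (∀ A ∈ l, P A) → P (mdL r l)) : ∀ A, P A := by
  intro A
  induction A with
  | var x => exact hv x
  | neg A ih => exact hn A ih
  | cn k m A ih =>
    rw [cn_eq]
    apply hc
    intro B hB
    rw [List.mem_ofFn] at hB
    obtain ⟨i, hi⟩ := hB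
    rw [← hi]
    exact ih i
  | md r m A ih =>
    rw [md_eq]
    apply hm
    intro B hB
    rw [List.mem_ofFn] at hB
    obtain ⟨i, hi⟩ := hB
    rw [← hi]
    exact ih i

theorem subs_self (A : Fm p) : A ∈ A.subs := by
  cases A <;> simp [Fm.subs]

theorem subs_neg (A : Fm p) : (Fm.neg A).subs = .neg A :: A.subs := rfl

private theorem ofFn_get_map {α β : Type} (l : List α) (f : α → β) : (List.ofFn fun i => f (l.get i)) = l.map f := by
  conv_rhs => rw [← List.ofFn_get l, List.map_ofFn]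
  rfl

theorem subs_cnL (k : Bool) (l : List (Fm p)) : (cnL k l).subs = cnL k l :: (l.map Fm.subs).flatten := by
  rw [← ofFn_get_map]
  rfl

theorem subs_mdL (r : ZMod p) (l : List (Fm p)) : (mdL r l).subs = mdL r l :: (l.map Fm.subs).flatten := by
  rw [← ofFn_get_map]
  rfl

theorem subs_mem_cnL {k : Bool} {l : List (Fm p)} {A : Fm p} (h : A ∈ l) : A ∈ (cnL k l).subs := by
  rw [subs_cnL]
  exact List.mem_cons_of_mem _ (List.mem_flatten.mpr ⟨A.subs, List.mem_map_of_mem h, subs_self A⟩)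

theorem subs_mem_mdL {r : ZMod p} {l : List (Fm p)} {A : Fm p} (h : A ∈ l) : A ∈ (mdL r l).subs := by
  rw [subs_mdL]
  exact List.mem_cons_of_mem _ (List.mem_flatten.mpr ⟨A.subs, List.mem_map_of_mem h, subs_self A⟩)

theorem subs_mem_neg {A : Fm p} : A ∈ (Fm.neg A).subs := by
  rw [subs_neg]
  exact List.mem_cons_of_mem _ (subs_self A)

theorem subs_trans {A B C : Fm p} (h1 : B ∈ A.subs) (h2 : C ∈ B.subs) : C ∈ A.subs := by
  revert h1
  refine indL (P := fun A => B ∈ A.subs → C ∈ A.subs) ?_ ?_ ?_ ?_ A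
  · intro x h1
    simp only [Fm.subs, List.mem_singleton] at h1
    rw [h1] at h2
    exact h2
  · intro A ih h1
    rw [subs_neg, List.mem_cons] at h1
    rcases h1 with h1 | h1
    · rw [h1] at h2
      exact h2
    · rw [subs_neg]
      exact List.mem_cons_of_mem _ (ih h1)
  · intro k l ih h1
    rw [subs_cnL, List.mem_cons] at h1
    rcases h1 with h1 | h1
    · rw [h1] at h2
      exact h2
    · rw [List.mem_flatten] at h1
      obtain ⟨L, hL, hB⟩ := h1
      rw [List.mem_map] at hL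
      obtain ⟨D, hD, rfl⟩ := hL
      rw [subs_cnL]
      exact List.mem_cons_of_mem _ (List.mem_flatten.mpr ⟨D.subs, List.mem_map_of_mem hD, ih D hD hB⟩)
  · intro r l ih h1
    rw [subs_mdL, List.mem_cons] at h1
    rcases h1 with h1 | h1
    · rw [h1] at h2
      exact h2
    · rw [List.mem_flatten] at h1
      obtain ⟨L, hL, hB⟩ := h1
      rw [List.mem_map] at hL
      obtain ⟨D, hD, rfl⟩ := hL
      rw [subs_mdL]
      exact List.mem_cons_of_mem _ (List.mem_flatten.mpr ⟨D.subs, List.mem_map_of_mem hD, ih D hD hB⟩)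

theorem subs_length (A : Fm p) : A.subs.length = A.size := by
  induction A with
  | var x => rfl
  | neg A ih => simp [Fm.subs, Fm.size, ih]
  | cn k m A ih =>
    simp only [Fm.subs, Fm.size, List.length_cons, List.length_flatten, List.map_ofFn, List.sum_ofFn, Function.comp_apply, ih]
    omega
  | md r m A ih =>
    simp only [Fm.subs, Fm.size, List.length_cons, List.length_flatten, List.map_ofFn, List.sum_ofFn, Function.comp_apply, ih]
    omega

theorem dep_neg (A : Fm p) (c : ℕ) : (Fm.neg A).dep c = (if c = 1 then 0 else 1) + A.dep 1 := rfl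

theorem dep_cnL_mem {k : Bool} {l : List (Fm p)} {A : Fm p} (h : A ∈ l) (c : ℕ) :
    (if c = cd k then 0 else 1) + A.dep (cd k) ≤ (cnL k l).dep c := by
  obtain ⟨i, hi⟩ := List.mem_iff_get.mp h
  show (if c = cd k then 0 else 1) + A.dep (cd k) ≤
    (if c = (if k then 2 else 3) then 0 else 1) + Finset.univ.sup fun i => (l.get i).dep (if k then 2 else 3)
  have h1 : A.dep (cd k) ≤ Finset.univ.sup fun i => (l.get i).dep (if k then 2 else 3) := by
    rw [← hi]
    exact Finset.le_sup (f := fun i => (l.get i).dep (if k then 2 else 3)) (Finset.mem_univ i)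
  exact Nat.add_le_add_left h1 _

theorem dep_mdL_mem {r : ZMod p} {l : List (Fm p)} {A : Fm p} (h : A ∈ l) (c : ℕ) : 1 + A.dep 0 ≤ (mdL r l).dep c := by
  obtain ⟨i, hi⟩ := List.mem_iff_get.mp h
  show 1 + A.dep 0 ≤ 1 + Finset.univ.sup fun i => (l.get i).dep 0
  have h1 : A.dep 0 ≤ Finset.univ.sup fun i => (l.get i).dep 0 := by
    rw [← hi]
    exact Finset.le_sup (f := fun i => (l.get i).dep 0) (Finset.mem_univ i)
  exact Nat.add_le_add_left h1 _

theorem dep_le (A : Fm p) (c : ℕ) : A.dep c ≤ A.dep 0 := by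
  cases A with
  | var x => exact le_rfl
  | neg A =>
    show (if c = 1 then 0 else 1) + A.dep 1 ≤ (if 0 = 1 then 0 else 1) + A.dep 1
    rw [if_neg (by norm_num : ¬ (0:ℕ) = 1)]
    split_ifs <;> omega
  | cn k m A =>
    simp only [Fm.dep]
    have h0 : ¬ (0:ℕ) = (if k then 2 else 3) := by cases k <;> simp
    rw [if_neg h0]
    split_ifs <;> omega
  | md r m A => exact le_rfl

theorem dep_le' (A : Fm p) (c : ℕ) : A.dep 0 ≤ A.dep c + 1 := by
  cases A with
  | var x => exact Nat.le_succ _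
  | neg A =>
    show (if 0 = 1 then 0 else 1) + A.dep 1 ≤ (if c = 1 then 0 else 1) + A.dep 1 + 1
    rw [if_neg (by norm_num : ¬ (0:ℕ) = 1)]
    split_ifs <;> omega
  | cn k m A =>
    simp only [Fm.dep]
    have h0 : ¬ (0:ℕ) = (if k then 2 else 3) := by cases k <;> simp
    rw [if_neg h0]
    split_ifs <;> omega
  | md r m A => exact Nat.le_succ _

theorem dep_subs {A B : Fm p} (h : B ∈ A.subs) : B.dep 0 ≤ A.dep 0 := by
  revert h
  refine indL (P := fun A => B ∈ A.subs → B.dep 0 ≤ A.dep 0) ?_ ?_ ?_ ?_ A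
  · intro x h1
    simp only [Fm.subs, List.mem_singleton] at h1
    rw [h1]
  · intro A ih h1
    rw [subs_neg, List.mem_cons] at h1
    rcases h1 with h1 | h1
    · rw [h1]
    · refine (ih h1).trans ?_
      rw [dep_neg, if_neg (by norm_num)]
      have := dep_le' A 1
      omega
  · intro k l ih h1
    rw [subs_cnL, List.mem_cons] at h1
    rcases h1 with h1 | h1
    · rw [h1]
    · rw [List.mem_flatten] at h1
      obtain ⟨L, hL, hB⟩ := h1
      rw [List.mem_map] at hL
      obtain ⟨D, hD, rfl⟩ := hL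
      refine (ih D hD hB).trans ?_
      have h2 := dep_cnL_mem (k := k) hD 0
      have h3 := dep_le' D (cd k)
      have h4 : (if 0 = cd k then 0 else 1) = 1 := by cases k <;> simp [cd]
      rw [h4] at h2
      omega
  · intro r l ih h1
    rw [subs_mdL, List.mem_cons] at h1
    rcases h1 with h1 | h1
    · rw [h1]
    · rw [List.mem_flatten] at h1
      obtain ⟨L, hL, hB⟩ := h1
      rw [List.mem_map] at hL
      obtain ⟨D, hD, rfl⟩ := hL
      refine (ih D hD hB).trans ?_
      have h2 := dep_mdL_mem (r := r) hD 0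
      omega

theorem inst_neg (u : ℕ → Fm p) (G : ℕ → List (Fm p)) (S : Sch p) :
    (Sch.neg S).inst u G = (S.inst u G).map Fm.neg := rfl

theorem inst_cn (u : ℕ → Fm p) (G : ℕ → List (Fm p)) (k : Bool) (m : ℕ) (S : Fin m → Sch p) :
    (Sch.cn k m S).inst u G = [cnL k (List.ofFn fun i => (S i).inst u G).flatten] := rfl

theorem inst_md (u : ℕ → Fm p) (G : ℕ → List (Fm p)) (r : ZMod p) (m : ℕ) (S : Fin m → Sch p) :
    (Sch.md r m S).inst u G = [mdL r (List.ofFn fun i => (S i).inst u G).flatten] := rfl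

theorem sqs_sub (u : ℕ → Fm p) (G : ℕ → List (Fm p)) (S : Sch p) {j : ℕ} (hj : j ∈ S.sqs) {A : Fm p} (hA : A ∈ G j) :
    ∃ B ∈ S.inst u G, A ∈ B.subs := by
  induction S with
  | mv i => simp [Sch.sqs] at hj
  | sq i =>
    simp only [Sch.sqs, List.mem_singleton] at hj
    subst hj
    exact ⟨A, hA, subs_self A⟩
  | neg S ih =>
    obtain ⟨B, hB, hAB⟩ := ih hj
    exact ⟨Fm.neg B, by rw [inst_neg]; exact List.mem_map_of_mem hB, subs_trans subs_mem_neg hAB⟩
  | cn k m S ih =>
    simp only [Sch.sqs, List.mem_flatten, List.mem_ofFn] at hj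
    obtain ⟨l, ⟨i, rfl⟩, hj⟩ := hj
    obtain ⟨B, hB, hAB⟩ := ih i hj
    refine ⟨_, by rw [inst_cn]; exact List.mem_singleton_self _, subs_trans (subs_mem_cnL ?_) hAB⟩
    exact List.mem_flatten.mpr ⟨_, List.mem_ofFn.mpr ⟨i, rfl⟩, hB⟩
  | md r m S ih =>
    simp only [Sch.sqs, List.mem_flatten, List.mem_ofFn] at hj
    obtain ⟨l, ⟨i, rfl⟩, hj⟩ := hj
    obtain ⟨B, hB, hAB⟩ := ih i hj
    refine ⟨_, by rw [inst_md]; exact List.mem_singleton_self _, subs_trans (subs_mem_mdL ?_) hAB⟩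
    exact List.mem_flatten.mpr ⟨_, List.mem_ofFn.mpr ⟨i, rfl⟩, hB⟩

theorem mvs_sub (u : ℕ → Fm p) (G : ℕ → List (Fm p)) (S : Sch p) {i : ℕ} (hi : i ∈ S.mvs) :
    ∃ B ∈ S.inst u G, u i ∈ B.subs := by
  induction S with
  | mv j =>
    simp only [Sch.mvs, List.mem_singleton] at hi
    subst hi
    exact ⟨u i, List.mem_singleton_self _, subs_self _⟩
  | sq j => simp [Sch.mvs] at hi
  | neg S ih =>
    obtain ⟨B, hB, hAB⟩ := ih hi
    exact ⟨Fm.neg B, by rw [inst_neg]; exact List.mem_map_of_mem hB, subs_trans subs_mem_neg hAB⟩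
  | cn k m S ih =>
    simp only [Sch.mvs, List.mem_flatten, List.mem_ofFn] at hi
    obtain ⟨l, ⟨j, rfl⟩, hi⟩ := hi
    obtain ⟨B, hB, hAB⟩ := ih j hi
    refine ⟨_, by rw [inst_cn]; exact List.mem_singleton_self _, subs_trans (subs_mem_cnL ?_) hAB⟩
    exact List.mem_flatten.mpr ⟨_, List.mem_ofFn.mpr ⟨j, rfl⟩, hB⟩
  | md r m S ih =>
    simp only [Sch.mvs, List.mem_flatten, List.mem_ofFn] at hi
    obtain ⟨l, ⟨j, rfl⟩, hi⟩ := hi
    obtain ⟨B, hB, hAB⟩ := ih j hi
    refine ⟨_, by rw [inst_md]; exact List.mem_singleton_self _, subs_trans (subs_mem_mdL ?_) hAB⟩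
    exact List.mem_flatten.mpr ⟨_, List.mem_ofFn.mpr ⟨j, rfl⟩, hB⟩

end ACpFrege
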