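import Pool.Agent.H98.AF.ASchAll
import Pool.Agent.H98.AF.ABase

/-!
Row AFA_Rule (project MP_28250c_AF): every sound rule preserves the property that the members have value 1 on the vector `f`.
The values of the metavariables `R.mvs`, `R.sqs` are `vv`, `ww`; `Claim` holds for every premise and for the conclusion (`claim_all` with
`base_mv`, `base_sq`). Part 4 of `Claim P` with `k = false` gives `Z f (Ea P false)` for the premises. Where all `Ea P false` vanish
`Ea C false` vanishes by soundness, so `Z f (Ea C false)` by `good_list`. For a member `A` of the conclusion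
`1 - h A = (1 - Ea C false) * (1 - h A) + (1 - h A) * Ea C false`.
-/

set_option autoImplicit false
open Finset

namespace ACpFrege

variable {K : Type} [Field K] {E : Type} [AddCommGroup E] [Module K E] {n : ℕ} {p : ℕ}

theorem good_list (s : Slow K E n) {T : ℕ} {f : E} (hf : f ∈ s.M 0) (hL : 4 * T ≤ s.L) (v : Pt n → ℕ → Bool)
    (w : Pt n → ℕ → List Bool) (hD : VW K T v w) (l : List (Pt n → K)) (hl : ∀ a ∈ l, Bv a ∧ s.Z f a)
    (hl' : ∀ a ∈ l, ∀ x y, v x = v y → w x = w y → a x = a y) (g : Pt n → K)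
    (hg : ∀ x y, v x = v y → w x = w y → g x = g y) (h0 : ∀ x, (∀ a ∈ l, a x = 0) → g x = 0) : s.Z f g := by
  induction l generalizing g with
  | nil =>
    have h : g = 0 := by
      funext x
      exact h0 x fun a ha => absurd ha List.not_mem_nil
    rw [h]
    exact Z_zero s f
  | cons a l ih =>
    have ha := hl a List.mem_cons_self
    have ha' := hl' a List.mem_cons_self
    have h1 : g = g * a + g * (1 - a) := by ring
    rw [h1]
    refine Z_add s (Z_mul s hf (hD g hg) (hD a ha') ha.2 (by omega)) ?_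
    refine ih (fun b hb => hl b (List.mem_cons_of_mem _ hb)) (fun b hb => hl' b (List.mem_cons_of_mem _ hb)) _ ?_ ?_
    · intro x y hv hw
      show g x * (1 - a x) = g y * (1 - a y)
      rw [hg x y hv hw, ha' x y hv hw]
    · intro x hx
      show g x * (1 - a x) = 0
      rcases ha.1 x with h | h
      · have h2 : g x = 0 := by
          refine h0 x fun b hb => ?_
          rcases List.mem_cons.1 hb with rfl | hb
          · exact h
          · exact hx b hb
        rw [h2, zero_mul]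
      · rw [h, sub_self, mul_zero]

private theorem ARule_pow [Fact p.Prime] {t d : ℕ} (ht : 1 ≤ t) : (t * p) ^ d ≤ t * (p * (t * p) ^ d) := by
  have h1 : 1 ≤ p := (Fact.out : p.Prime).one_lt.le
  calc (t * p) ^ d = 1 * (1 * (t * p) ^ d) := by ring
    _ ≤ t * (p * (t * p) ^ d) := Nat.mul_le_mul ht (Nat.mul_le_mul_right _ h1)

private theorem ARule_plf (g : Pt n → K) : pl false g = 1 - g := by
  unfold pl
  rw [if_neg Bool.false_ne_true]

private theorem ARule_det (v : Pt n → ℕ → Bool) (w : Pt n → ℕ → List Bool) (S : Sch p) (k : Bool) :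
    ∀ x y, v x = v y → w x = w y → Ea K v w S k x = Ea K v w S k y := by
  intro x y hv hw
  unfold Ea
  rw [hv, hw]

private theorem ARule_zero (v : Pt n → ℕ → Bool) (w : Pt n → ℕ → List Bool) (S : Sch p) (x : Pt n) :
    Ea K v w S false x = 0 ↔ ∀ b ∈ S.ev (v x) (w x), b = true := by
  unfold Ea
  constructor
  · intro h b hb
    cases b
    · rw [if_pos hb] at h
      exact absurd h one_ne_zero
    · rfl
  · intro h
    exact if_neg fun hf => Bool.false_ne_true (h false hf)

theorem rule_ok [Fact p.Prime] [CharP K p] (s : Slow K E n) {t e d T : ℕ} (ht : 1 ≤ t) {f : E} (hf : f ∈ s.M 0) (R : Rule p)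
    (hS : R.Sound) (u : ℕ → Fm p) (G : ℕ → List (Fm p)) (hp : ∀ P ∈ R.prem, ∀ A ∈ P.inst u G, s.Ok t e d f A)
    (hc : ∀ A ∈ R.concl.inst u G, s.Ok t e d f A) (hR : ∀ j ∈ R.sqs, ∀ k, s.Resp t e f (cnL k (G j)))
    (hT : (R.mvs.length + 3 * R.sqs.length) * (p * (t * (p * (t * p) ^ d))) ≤ T) (hT' : t * (p * (t * p) ^ d) ≤ T)
    (hL : 4 * T ≤ s.L) (h : ∀ P ∈ R.prem, ∀ A ∈ P.inst u G, s.Z f (1 - s.h t e A)) :
    ∀ A ∈ R.concl.inst u G, s.Z f (1 - s.h t e A) := by
  obtain ⟨v, hv⟩ : ∃ v, v = s.vv t e R.mvs u := ⟨_, rfl⟩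
  obtain ⟨w, hw⟩ : ∃ w, w = s.ww t e R.sqs G := ⟨_, rfl⟩
  have hall : ∀ S : Sch p, (S = R.concl ∨ S ∈ R.prem) → ∀ A ∈ S.inst u G, s.Ok t e d f A := by
    rintro S (rfl | hS')
    · exact hc
    · exact hp S hS'
  have hmv : ∀ i, i ∈ R.mvs ↔ ∃ S, (S = R.concl ∨ S ∈ R.prem) ∧ i ∈ S.mvs := by
    intro i
    unfold Rule.mvs
    rw [List.mem_append, List.mem_flatten]
    constructor
    · rintro (hi | ⟨l, hl, hi⟩)
      · exact ⟨_, Or.inl rfl, hi⟩
      · obtain ⟨S, hS', rfl⟩ := List.mem_map.1 hl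
        exact ⟨S, Or.inr hS', hi⟩
    · rintro ⟨S, rfl | hS', hi⟩
      · exact Or.inl hi
      · exact Or.inr ⟨_, List.mem_map.2 ⟨S, hS', rfl⟩, hi⟩
  have hsq : ∀ i, i ∈ R.sqs ↔ ∃ S, (S = R.concl ∨ S ∈ R.prem) ∧ i ∈ S.sqs := by
    intro i
    unfold Rule.sqs
    rw [List.mem_append, List.mem_flatten]
    constructor
    · rintro (hi | ⟨l, hl, hi⟩)
      · exact ⟨_, Or.inl rfl, hi⟩
      · obtain ⟨S, hS', rfl⟩ := List.mem_map.1 hl
        exact ⟨S, Or.inr hS', hi⟩
    · rintro ⟨S, rfl | hS', hi⟩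
      · exact Or.inl hi
      · exact Or.inr ⟨_, List.mem_map.2 ⟨S, hS', rfl⟩, hi⟩
  have hI : ∀ i ∈ R.mvs, (u i).dep 0 ≤ d := by
    intro i hi
    obtain ⟨S, hS', hi'⟩ := (hmv i).1 hi
    obtain ⟨B, hB, hAB⟩ := mvs_sub u G S hi'
    exact (hall S hS' B hB _ hAB).2
  have hJ' : ∀ j ∈ R.sqs, ∀ A ∈ G j, s.Resp t e f A ∧ A.dep 0 ≤ d := by
    intro j hj A hA
    obtain ⟨S, hS', hj'⟩ := (hsq j).1 hj
    obtain ⟨B, hB, hAB⟩ := sqs_sub u G S hj' hA
    exact hall S hS' B hB _ hAB
  have hJ : ∀ j ∈ R.sqs, ∀ A ∈ G j, A.dep 0 ≤ d := fun j hj A hA => (hJ' j hj A hA).2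
  have hVW : VW K T v w := by
    rw [hv, hw]
    exact vw_vw s ht hI hJ hT
  have hcl : ∀ S : Sch p, (S = R.concl ∨ S ∈ R.prem) → s.Claim t e T f u G v w S := by
    intro S hS'
    refine claim_all s ht hf u G v w hVW hT' hL S (hall S hS') ?_ ?_
    · intro i hi
      rw [hv, hw]
      exact base_mv s ht hf hI hJ hT hT' hL ((hmv i).2 ⟨S, hS', hi⟩)
    · intro j hj
      have hj' := (hsq j).2 ⟨S, hS', hj⟩
      rw [hv, hw]
      exact base_sq s ht hf hI hJ hT hT' hL hj' (hR j hj') fun A hA => (hJ' j hj' A hA).1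
  have hprem : ∀ P ∈ R.prem, s.Z f (Ea K v w P false) := by
    intro P hP
    obtain ⟨_, _, _, h4⟩ := hcl P (Or.inr hP)
    have h5 := h4 false 1 (Dg_one T) fun A hA => by
      rw [ARule_plf, one_mul]
      exact h P hP A hA
    rwa [one_mul] at h5
  have hconcl : s.Z f (Ea K v w R.concl false) := by
    refine good_list s hf hL v w hVW (R.prem.map fun P => Ea K v w P false) ?_ ?_ _ (ARule_det v w R.concl false) ?_
    · intro a ha
      obtain ⟨P, hP, rfl⟩ := List.mem_map.1 ha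
      refine ⟨fun x => ?_, hprem P hP⟩
      show (if false ∈ P.ev (v x) (w x) then (1 : K) else 0) = 0 ∨ (if false ∈ P.ev (v x) (w x) then (1 : K) else 0) = 1
      by_cases hx : false ∈ P.ev (v x) (w x)
      · right
        rw [if_pos hx]
      · left
        rw [if_neg hx]
    · intro a ha
      obtain ⟨P, _, rfl⟩ := List.mem_map.1 ha
      exact ARule_det v w P false
    · intro x hx
      rw [ARule_zero]
      refine hS (v x) (w x) fun P hP => ?_
      exact (ARule_zero (K := K) v w P x).1 (hx _ (List.mem_map.2 ⟨P, hP, rfl⟩))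
  intro A hA
  obtain ⟨_, _, h3, _⟩ := hcl R.concl (Or.inl rfl)
  have h3' := h3 false A hA
  rw [ARule_plf] at h3'
  have h1 : 1 - s.h t e A = (1 - Ea K v w R.concl false) * (1 - s.h t e A) + (1 - s.h t e A) * Ea K v w R.concl false := by
    ring
  rw [h1]
  refine Z_add s h3' ?_
  have hdA : s.h t e A ∈ Dg K n ((t * p) ^ d) := deg_h s e ht (hc A hA A (subs_self A)).2
  have hle : (t * p) ^ d ≤ t * (p * (t * p) ^ d) := ARule_pow ht
  exact Z_mul s hf (Submodule.sub_mem _ (Dg_one _) hdA) (hVW _ (ARule_det v w R.concl false)) hconcl (by omega)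

end ACpFrege
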