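import Pool.Agent.H98.AF.ACon

/-!
Row FFSch1: schemes, single members and negation. Standing hypotheses (see the hypotheses of each theorem):
 f ∈ M 0; `VW`: every function of `x` determined by `v x` and `w x` is in `Dg T`; `T0 = t*(p*(t*p)^d) ≤ T`, `4T ≤ L`.
Write ℓ = S.inst u G, λ x = S.ev (v x) (w x); `Ec`, `El`, `Ea` of SDefs. `s.Claim .. S` is a conjunction of four statements.
PROOFS.
`ea_dg`, `ec_dg`: immediate from `hD`.
`claim_single` (S.inst = [A], S.ev = [b x]): if `Z f (h A - (b x as 0/1))` then `Claim`: sum = h A, count true = 0/1 value `b`; length 1 = 1;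
 `Ea S true = b`, `Ea S false = 1 - b`, i.e. `Ea S k = pl k b`; so `(1 - pl k b) * pl k (h A)` = `(1 - pl k b) * (pl k (h A) - pl k b)` (as `(1-z) z = 0` for
 0/1 `z`), `pl k (h A) - pl k b = ±(h A - b)`; and `P * pl k b = P * pl k (h A) - P * (pl k (h A) - pl k b)`. Degrees: `b` as a function of `x` is in
 `Dg T` by `hb`, `h A ∈ Dg T` by `hA`.
`claim_neg`: ℓ' = ℓ.map neg, λ' = λ.map not. count true λ' = length λ - count true λ; Σ h (neg A) = length ℓ - Σ h A; `k ∈ λ.map not ↔ !k ∈ λ`;
 `pl k (h (neg A)) = pl (!k) (h A)` (`h_neg`, `pl_neg`).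
-/

set_option autoImplicit false
open Finset

namespace ACpFrege

variable {K : Type} [Field K] {E : Type} [AddCommGroup E] [Module K E] {n : ℕ} {p : ℕ}

/-- Every function determined by `v` and `w` has degree at most `T`. -/
def VW (K : Type) [Field K] {n : ℕ} (T : ℕ) (v : Pt n → ℕ → Bool) (w : Pt n → ℕ → List Bool) : Prop :=
  ∀ g : Pt n → K, (∀ x y, v x = v y → w x = w y → g x = g y) → g ∈ Dg K n T

theorem claim_single (s : Slow K E n) {t e T : ℕ} {f : E} (hf : f ∈ s.M 0) (u : ℕ → Fm p) (G : ℕ → List (Fm p))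
    (v : Pt n → ℕ → Bool) (w : Pt n → ℕ → List Bool) (hD : VW K T v w) (hL : 4 * T ≤ s.L) (S : Sch p) (A : Fm p) (b : Pt n → Bool)
    (h1 : S.inst u G = [A]) (h2 : ∀ x, S.ev (v x) (w x) = [b x]) (hA : s.h t e A ∈ Dg K n T)
    (hZ : s.Z f (s.h t e A - fun x => if b x then 1 else 0)) : s.Claim t e T f u G v w S := by
  obtain ⟨B, hB⟩ : ∃ B : Pt n → K, B = fun x => if b x then 1 else 0 := ⟨_, rfl⟩
  rw [← hB] at hZ
  have hBx : ∀ x, B x = if b x then 1 else 0 := fun x => by rw [hB]
  have hBd : B ∈ Dg K n T := hD _ (fun x y hv hw => by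
    have h3 : [b x] = [b y] := by rw [← h2 x, ← h2 y, hv, hw]
    have h4 : b x = b y := by simpa using h3
    rw [hBx, hBx, h4])
  have hEa : ∀ k, Ea K v w S k = pl k B := by
    intro k
    funext x
    unfold Ea
    rw [h2 x]
    have h3 := hBx x
    cases k <;> cases hb : b x <;> rw [hb] at h3 <;> simp [pl, h3]
  have hEc : Ec K v w S = B := by
    funext x
    unfold Ec
    rw [h2 x]
    have h3 := hBx x
    cases hb : b x <;> rw [hb] at h3 <;> simp [h3]
  have hdiff : ∀ k, s.Z f (pl k (s.h t e A) - pl k B) := by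
    intro k
    cases k
    · have h3 : pl false (s.h t e A) - pl false B = -(s.h t e A - B) := by
        show (1 - s.h t e A) - (1 - B) = _
        ring
      rw [h3]
      exact Z_neg s hZ
    · exact hZ
  have hBB : ∀ k, (1 - pl k B) * pl k B = 0 := by
    intro k
    funext x
    have h3 := hBx x
    cases k <;> cases hb : b x <;> rw [hb] at h3 <;> simp [pl, h3]
  refine ⟨?_, ?_, ?_, ?_⟩
  · rw [h1, hEc, List.map_singleton, List.sum_singleton]
    exact hZ
  · have h3 : ((fun _ => (((S.inst u G).length : ℕ) : K)) - El K v w S : Pt n → K) = 0 := by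
      funext x
      show (((S.inst u G).length : ℕ) : K) - (((S.ev (v x) (w x)).length : ℕ) : K) = 0
      rw [h1, h2 x, List.length_singleton, List.length_singleton, sub_self]
    rw [h3]
    exact Z_zero s f
  · intro k A' hA'
    rw [h1, List.mem_singleton] at hA'
    rw [hA', hEa]
    have e1 : (1 - pl k B) * pl k (s.h t e A) = (1 - pl k B) * (pl k (s.h t e A) - pl k B) := by
      rw [mul_sub, hBB k, sub_zero]
    rw [e1]
    exact Z_mul s hf (a := T) (b := T) (Submodule.sub_mem _ (Dg_one _) (pl_dg hBd))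
      (Submodule.sub_mem _ (pl_dg hA) (pl_dg hBd)) (hdiff k) (by omega)
  · intro k P hP h
    rw [hEa]
    have e1 : P * pl k B = P * pl k (s.h t e A) - P * (pl k (s.h t e A) - pl k B) := by ring
    rw [e1]
    exact Z_sub s (h A (by rw [h1]; exact List.mem_singleton.2 rfl)) (Z_mul s hf (a := T) (b := T) hP
      (Submodule.sub_mem _ (pl_dg hA) (pl_dg hBd)) (hdiff k) (by omega))

theorem claim_neg (s : Slow K E n) {t e T : ℕ} {f : E} (hf : f ∈ s.M 0) (u : ℕ → Fm p) (G : ℕ → List (Fm p))
    (v : Pt n → ℕ → Bool) (w : Pt n → ℕ → List Bool) (S : Sch p) (h : s.Claim t e T f u G v w S) :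
    s.Claim t e T f u G v w (.neg S) := by
  obtain ⟨c1, c2, c3, c4⟩ := h
  have hcount : ∀ l : List Bool, (l.map not).count true + l.count true = l.length := by
    intro l
    induction l with
    | nil => rfl
    | cons a l ih => cases a <;> simp <;> omega
  have hmem : ∀ (k : Bool) (l : List Bool), (k ∈ l.map not) ↔ (!k) ∈ l := by
    intro k l
    rw [List.mem_map]
    constructor
    · rintro ⟨a, ha, rfl⟩
      rw [Bool.not_not]
      exact ha
    · intro ha
      exact ⟨_, ha, Bool.not_not k⟩
  have hEa : ∀ k, Ea K v w (.neg S) k = Ea K v w S (!k) := by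
    intro k
    funext x
    show (if k ∈ (S.ev (v x) (w x)).map not then (1 : K) else 0) = if (!k) ∈ S.ev (v x) (w x) then 1 else 0
    by_cases h : (!k) ∈ S.ev (v x) (w x)
    · rw [if_pos h, if_pos ((hmem k _).2 h)]
    · rw [if_neg h, if_neg (fun h' => h ((hmem k _).1 h'))]
  have hh : ∀ (k : Bool) (A : Fm p), pl k (s.h t e (.neg A)) = pl (!k) (s.h t e A) := by
    intro k A
    rw [h_neg, pl_neg]
  have hsum : ∀ l : List (Fm p), ((l.map Fm.neg).map (s.h t e)).sum = (fun _ => ((l.length : ℕ) : K)) - (l.map (s.h t e)).sum := by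
    intro l
    induction l with
    | nil =>
      funext x
      simp
    | cons A l ih =>
      rw [List.map_cons, List.map_cons, List.sum_cons, ih, h_neg, List.map_cons, List.sum_cons, List.length_cons]
      funext x
      simp only [Pi.add_apply, Pi.sub_apply, Pi.one_apply, Nat.cast_add, Nat.cast_one]
      ring
  refine ⟨?_, ?_, ?_, ?_⟩
  · rw [inst_neg, hsum]
    have e1 : (fun _ => (((S.inst u G).length : ℕ) : K)) - ((S.inst u G).map (s.h t e)).sum - Ec K v w (.neg S) =
        ((fun _ => (((S.inst u G).length : ℕ) : K)) - El K v w S) - (((S.inst u G).map (s.h t e)).sum - Ec K v w S) := by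
      have e2 : Ec K v w (.neg S) = El K v w S - Ec K v w S := by
        funext x
        show ((((S.ev (v x) (w x)).map not).count true : ℕ) : K) = (((S.ev (v x) (w x)).length : ℕ) : K) -
          (((S.ev (v x) (w x)).count true : ℕ) : K)
        rw [← hcount (S.ev (v x) (w x)), Nat.cast_add]
        ring
      rw [e2]
      ring
    rw [e1]
    exact Z_sub s c2 c1
  · have e1 : El K v w (.neg S) = El K v w S := by
      funext x
      show ((((S.ev (v x) (w x)).map not).length : ℕ) : K) = (((S.ev (v x) (w x)).length : ℕ) : K)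
      rw [List.length_map]
    rw [inst_neg, List.length_map, e1]
    exact c2
  · intro k A hA
    rw [inst_neg, List.mem_map] at hA
    obtain ⟨A', hA', rfl⟩ := hA
    rw [hEa, hh]
    exact c3 _ A' hA'
  · intro k P hP h
    rw [hEa]
    refine c4 _ P hP fun A hA => ?_
    rw [← hh]
    exact h _ (by rw [inst_neg]; exact List.mem_map_of_mem hA)

end ACpFrege
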