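import Pool.Agent.H98.AF.ASch1

/-!
Row FFSchMd: schemes, MOD connectives. Standing hypotheses (see the hypotheses of each theorem):
 f ∈ M 0; `VW`: every function of `x` determined by `v x` and `w x` is in `Dg T`; `T0 = t*(p*(t*p)^d) ≤ T`, `4T ≤ L`.
Write ℓ = S.inst u G, λ x = S.ev (v x) (w x); `Ec`, `El`, `Ea` of SDefs. `s.Claim .. S` is a conjunction of four statements.
PROOFS.
`claim_md`: h' = 1 - (Σ_(A ∈ L) h A - r)^(p-1), b x = [count ≡ r] = 1 - (Σ_i Ec (S i) x - r)^(p-1) (`pv_pow` with the integer `count - r.val`;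
 `(count : ZMod p) = r ↔ (count : K) = (r.val : K)`). `Σ_L h - Σ_i Ec (S i)` kills `f` (first parts). `a^k - b^k` is a multiple of `a - b`
 (`sub_dvd_pow_sub_pow` is not enough for degrees: use `Commute.mul_geom_sum₂`/`mul_geom_sum₂`: `(Σ a^i b^(k-1-i)) (a-b) = a^k - b^k`), degrees: `a ∈ Dg e0`,
 e0 = (t*p)^d, `b ∈ Dg T` and `b^j ∈ Dg T` (by `hD`), `a^i ∈ Dg (p*e0) ≤ Dg T`. Then `claim_single`.
-/

set_option autoImplicit false
open Finset

namespace ACpFrege

variable {K : Type} [Field K] {E : Type} [AddCommGroup E] [Module K E] {n : ℕ} {p : ℕ}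

theorem claim_md [Fact p.Prime] [CharP K p] (s : Slow K E n) {t e d T : ℕ} (ht : 1 ≤ t) {f : E} (hf : f ∈ s.M 0)
    (u : ℕ → Fm p) (G : ℕ → List (Fm p)) (v : Pt n → ℕ → Bool) (w : Pt n → ℕ → List Bool) (hD : VW K T v w)
    (hT : t * (p * (t * p) ^ d) ≤ T) (hL : 4 * T ≤ s.L) (r : ZMod p) (m : ℕ) (S : Fin m → Sch p)
    (hok : ∀ A ∈ (Sch.md r m S).inst u G, s.Ok t e d f A) (h : ∀ i, s.Claim t e T f u G v w (S i)) :
    s.Claim t e T f u G v w (.md r m S) := by
  classical
  have hp : 1 < p := (Fact.out : p.Prime).one_lt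
  set e0 : ℕ := (t * p) ^ d with he0
  have hpe : p * e0 ≤ T := le_trans (Nat.le_mul_of_pos_left _ ht) hT
  have heT : e0 ≤ T := le_trans (Nat.le_mul_of_pos_left _ (by omega)) hpe
  set L : List (Fm p) := (List.ofFn fun i => (S i).inst u G).flatten with hLd
  have hin : (Sch.md r m S).inst u G = [mdL r L] := inst_md u G r m S
  have hokL : s.Ok t e d f (mdL r L) := hok _ (by rw [hin]; exact List.mem_singleton.2 rfl)
  have hdep : ∀ A ∈ L, A.dep 0 ≤ d := fun A hA => (hokL A (subs_mem_mdL hA)).2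
  set c : Pt n → K := fun _ => ((r.val : ℕ) : K) with hc
  set a : Pt n → K := (L.map (s.h t e)).sum - c with ha
  set b : Pt n → K := (∑ i, Ec K v w (S i)) - c with hb
  -- degrees
  have hcd : ∀ D, c ∈ Dg K n D := fun D => Dg_const D _
  have had : a ∈ Dg K n e0 := by
    refine Submodule.sub_mem _ (listsum_dg _ ?_) (hcd e0)
    intro g hg
    obtain ⟨A, hA, rfl⟩ := List.mem_map.1 hg
    exact deg_h s e ht (hdep A hA)
  have hbx : ∀ x y, v x = v y → w x = w y → b x = b y := by
    intro x y h1 h2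
    show (∑ i, Ec K v w (S i)) x - c x = (∑ i, Ec K v w (S i)) y - c y
    rw [Finset.sum_apply, Finset.sum_apply]
    congr 1
    refine Finset.sum_congr rfl fun i _ => ?_
    show ((((S i).ev (v x) (w x)).count true : ℕ) : K) = ((((S i).ev (v y) (w y)).count true : ℕ) : K)
    rw [h1, h2]
  have hbj : ∀ j, b ^ j ∈ Dg K n T := by
    intro j
    refine hD _ fun x y h1 h2 => ?_
    show b x ^ j = b y ^ j
    rw [hbx x y h1 h2]
  have hbd : b ∈ Dg K n T := hD _ hbx
  have haj : ∀ j, j < p → a ^ j ∈ Dg K n T := by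
    intro j hj
    refine Dg_mono ?_ (Dg_pow had j)
    exact le_trans (Nat.mul_le_mul_right e0 hj.le) hpe
  -- the difference of the sums is killed
  have hab : a - b = ∑ i, ((((S i).inst u G).map (s.h t e)).sum - Ec K v w (S i)) := by
    rw [ha, hb, sub_sub_sub_cancel_right, Finset.sum_sub_distrib]
    congr 1
    rw [hLd, List.map_flatten, List.sum_flatten, List.map_map, List.map_ofFn, List.sum_ofFn]
    rfl
  have hZab : s.Z f (a - b) := by
    rw [hab]
    exact Z_sum s _ _ fun i _ => (h i).1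
  -- the truth value
  have hval : (fun x => if decide ((((List.ofFn fun i => (S i).ev (v x) (w x)).flatten.count true : ℕ) : ZMod p) = r) = true
      then (1 : K) else 0) = 1 - b ^ (p - 1) := by
    funext x
    show (if decide ((((List.ofFn fun i => (S i).ev (v x) (w x)).flatten.count true : ℕ) : ZMod p) = r) = true
      then (1 : K) else 0) = 1 - (b x) ^ (p - 1)
    have hbv : b x = ((((List.ofFn fun i => (S i).ev (v x) (w x)).flatten.count true : ℕ) : ℤ) - ((r.val : ℕ) : ℤ) : ℤ) := by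
      show (∑ i, Ec K v w (S i)) x - c x = _
      rw [Finset.sum_apply, List.count_flatten, List.map_ofFn, List.sum_ofFn]
      push_cast
      rfl
    have hiff : ((((List.ofFn fun i => (S i).ev (v x) (w x)).flatten.count true : ℕ) : ZMod p) = r) ↔ b x = 0 := by
      rw [hbv]
      push_cast
      rw [sub_eq_zero, CharP.natCast_eq_natCast K p, ← ZMod.natCast_eq_natCast_iff, ZMod.natCast_zmod_val]
    have hcong : (if decide ((((List.ofFn fun i => (S i).ev (v x) (w x)).flatten.count true : ℕ) : ZMod p) = r) = true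
        then (1 : K) else 0) = if b x = 0 then 1 else 0 :=
      if_congr (decide_eq_true_iff.trans hiff) rfl rfl
    rw [hcong]
    rcases pv_pow (K := K) (p := p) ((((List.ofFn fun i => (S i).ev (v x) (w x)).flatten.count true : ℕ) : ℤ)
      - ((r.val : ℕ) : ℤ)) with h3 | h3
    · rw [← hbv] at h3
      rw [if_pos h3.1, h3.2, sub_zero]
    · rw [← hbv] at h3
      rw [if_neg h3.1, h3.2, sub_self]
  refine claim_single s hf u G v w hD hL (.md r m S) (mdL r L)
    (fun x => decide ((((List.ofFn fun i => (S i).ev (v x) (w x)).flatten.count true : ℕ) : ZMod p) = r)) hin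
    (fun x => rfl) (Dg_mono heT (deg_h s e ht (hokL _ (subs_self _)).2)) ?_
  rw [hval, h_mdL]
  have hgeom : (1 - a ^ (p - 1)) - (1 - b ^ (p - 1)) =
      -((∑ i ∈ Finset.range (p - 1), a ^ i * b ^ (p - 1 - 1 - i)) * (a - b)) := by
    rw [(Commute.all a b).geom_sum₂_mul (p - 1)]
    ring
  rw [hgeom]
  refine Z_neg s (Z_mul s hf (a := T + T) (b := T) ?_ ?_ hZab (by omega))
  · refine Submodule.sum_mem _ fun i hi => Dg_mul (haj i ?_) (hbj _)
    have := Finset.mem_range.1 hi
    omega
  · exact Submodule.sub_mem _ (Dg_mono heT had) hbd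

end ACpFrege
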