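import Pool.Agent.H98.AF.ASchCn
import Pool.Agent.H98.AF.ASchMd

/-!
Row FFSchAll: induction over schemes. Standing hypotheses (see the hypotheses of each theorem):
 f ∈ M 0; `VW`: every function of `x` determined by `v x` and `w x` is in `Dg T`; `T0 = t*(p*(t*p)^d) ≤ T`, `4T ≤ L`.
Write ℓ = S.inst u G, λ x = S.ev (v x) (w x); `Ec`, `El`, `Ea` of SDefs. `s.Claim .. S` is a conjunction of four statements.
PROOFS.
`claim_all`: structural induction on `S`; hypotheses: `Claim` for the metavariables that occur, and `Ok` for all members of the instance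
 (`Ok A`: all subformulas respected by `f`, depth ≤ d); it passes to the parts: for `neg S`: `A ∈ (neg A).subs`; for `cn`/`md`: the members of
 the list are subformulas of the single member (`subs_mem_cnL`, `subs_trans`).
-/

set_option autoImplicit false
open Finset

namespace ACpFrege

variable {K : Type} [Field K] {E : Type} [AddCommGroup E] [Module K E] {n : ℕ} {p : ℕ}

theorem claim_all [Fact p.Prime] [CharP K p] (s : Slow K E n) {t e d T : ℕ} (ht : 1 ≤ t) {f : E} (hf : f ∈ s.M 0)
    (u : ℕ → Fm p) (G : ℕ → List (Fm p)) (v : Pt n → ℕ → Bool) (w : Pt n → ℕ → List Bool) (hD : VW K T v w)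
    (hT : t * (p * (t * p) ^ d) ≤ T) (hL : 4 * T ≤ s.L) (S : Sch p) (hok : ∀ A ∈ S.inst u G, s.Ok t e d f A)
    (hmv : ∀ i ∈ S.mvs, s.Claim t e T f u G v w (.mv i)) (hsq : ∀ j ∈ S.sqs, s.Claim t e T f u G v w (.sq j)) :
    s.Claim t e T f u G v w S := by
  induction S with
  | mv i => exact hmv i (by simp [Sch.mvs])
  | sq j => exact hsq j (by simp [Sch.sqs])
  | neg S ih =>
    refine claim_neg s hf u G v w S (ih (fun A hA => ?_) hmv hsq)
    have h1 := hok (.neg A) (by rw [inst_neg]; exact List.mem_map_of_mem hA)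
    exact fun B hB => h1 B (subs_trans subs_mem_neg hB)
  | cn k m S ih =>
    refine claim_cn s ht hf u G v w hD hT hL k m S hok fun i => ih i (fun A hA => ?_) (fun j hj => ?_) (fun j hj => ?_)
    · have h1 := hok _ (by rw [inst_cn]; exact List.mem_singleton_self _)
      exact fun B hB => h1 B (subs_trans (subs_mem_cnL (List.mem_flatten.mpr ⟨_, List.mem_ofFn.mpr ⟨i, rfl⟩, hA⟩)) hB)
    · exact hmv j (List.mem_flatten.mpr ⟨_, List.mem_ofFn.mpr ⟨i, rfl⟩, hj⟩)
    · exact hsq j (List.mem_flatten.mpr ⟨_, List.mem_ofFn.mpr ⟨i, rfl⟩, hj⟩)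
  | md r m S ih =>
    refine claim_md s ht hf u G v w hD hT hL r m S hok fun i => ih i (fun A hA => ?_) (fun j hj => ?_) (fun j hj => ?_)
    · have h1 := hok _ (by rw [inst_md]; exact List.mem_singleton_self _)
      exact fun B hB => h1 B (subs_trans (subs_mem_mdL (List.mem_flatten.mpr ⟨_, List.mem_ofFn.mpr ⟨i, rfl⟩, hA⟩)) hB)
    · exact hmv j (List.mem_flatten.mpr ⟨_, List.mem_ofFn.mpr ⟨i, rfl⟩, hj⟩)
    · exact hsq j (List.mem_flatten.mpr ⟨_, List.mem_ofFn.mpr ⟨i, rfl⟩, hj⟩)

end ACpFrege
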