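import Pool.Agent.H98.AF.ASch1

/-!
Row FFSchCn: schemes, disjunctions and conjunctions. Standing hypotheses (see the hypotheses of each theorem):
 f ∈ M 0; `VW`: every function of `x` determined by `v x` and `w x` is in `Dg T`; `T0 = t*(p*(t*p)^d) ≤ T`, `4T ≤ L`.
Write ℓ = S.inst u G, λ x = S.ev (v x) (w x); `Ec`, `El`, `Ea` of SDefs. `s.Claim .. S` is a conjunction of four statements.
PROOFS.
`claim_cn`: L := flatten of the ℓ_i, h' := h (cnL k L), value b x = any/all of the flattened λ_i x. First `pl k b = 1 - Π_i (1 - Ea (S i) k)` as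
 functions (k = true: some value is true; k = false: `1 - all = some value is false`). (a) `Z f ((1 - pl k h') * pl k b)`: for every i and A ∈ ℓ_i,
 `Z f ((1 - pl k h') * pl k (h A))` (`gate_mem`), so by the 4th part of `Claim (S i)`: `Z f ((1 - pl k h') * Ea (S i) k)`; `pl k b` is `Σ_i Ea (S i) k * (function
 determined by v, w)` (telescope the product over i, or: `pl k b = pl k b * [some Ea (S i) k = 1]`, e.g. `pl k b = Σ_i Ea (S i) k * c_i` with
 `c_i x := if i is the first index with Ea (S i) k x = 1 then 1 else 0`). (b) `Z f ((1 - pl k b) * pl k h')`: `gate_of_mem` with `P := 1 - pl k b`: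
 for A ∈ ℓ_i: `(1 - pl k b) * pl k (h A) = (1 - pl k b) * ((1 - Ea (S i) k) * pl k (h A))` because `(1 - pl k b) * Ea (S i) k = 0`. (c) so
 `Z f (pl k h' - pl k b)`, `Z f (h' - b)`, then `claim_single`.
-/

set_option autoImplicit false
open Finset

namespace ACpFrege

variable {K : Type} [Field K] {E : Type} [AddCommGroup E] [Module K E] {n : ℕ} {p : ℕ}

private theorem ASchCn_le [Fact p.Prime] {t d : ℕ} (ht : 1 ≤ t) : (t * p) ^ d ≤ t * (p * (t * p) ^ d) := by
  have h1 : 1 ≤ p := (Fact.out : p.Prime).one_lt.le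
  calc (t * p) ^ d = 1 * (1 * (t * p) ^ d) := by ring
    _ ≤ t * (p * (t * p) ^ d) := Nat.mul_le_mul ht (Nat.mul_le_mul_right _ h1)

private theorem ASchCn_any {l : List Bool} : (l.any id = true) ↔ true ∈ l := by
  simp

private theorem ASchCn_all {l : List Bool} : (l.all id = true) ↔ false ∉ l := by
  rw [List.all_eq_true]
  constructor
  · intro h h'
    exact absurd (h _ h') (by simp)
  · intro h x hx
    cases x with
    | true => rfl
    | false => exact absurd hx h

/-- The truth value of a disjunction or conjunction. -/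
private def ASchCn_b (k : Bool) (l : List Bool) : Bool := if k then l.any id else l.all id

private theorem ASchCn_pl (k : Bool) (l : Pt n → List Bool) (x : Pt n) :
    pl k (fun y => if ASchCn_b k (l y) then (1 : K) else 0) x = if k ∈ l x then 1 else 0 := by
  unfold pl ASchCn_b
  cases k with
  | true =>
    simp only [if_true]
    by_cases h : true ∈ l x
    · rw [if_pos h, if_pos (ASchCn_any.2 h)]
    · rw [if_neg h, if_neg fun h' => h (ASchCn_any.1 h')]
  | false =>
    simp only [Bool.false_eq_true, if_false, Pi.sub_apply, Pi.one_apply]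
    by_cases h : false ∈ l x
    · rw [if_pos h, if_neg fun h' => ASchCn_all.1 h' h, sub_zero]
    · rw [if_neg h, if_pos (ASchCn_all.2 h), sub_self]

theorem claim_cn [Fact p.Prime] [CharP K p] (s : Slow K E n) {t e d T : ℕ} (ht : 1 ≤ t) {f : E} (hf : f ∈ s.M 0)
    (u : ℕ → Fm p) (G : ℕ → List (Fm p)) (v : Pt n → ℕ → Bool) (w : Pt n → ℕ → List Bool) (hD : VW K T v w)
    (hT : t * (p * (t * p) ^ d) ≤ T) (hL : 4 * T ≤ s.L) (k : Bool) (m : ℕ) (S : Fin m → Sch p)
    (hok : ∀ A ∈ (Sch.cn k m S).inst u G, s.Ok t e d f A) (h : ∀ i, s.Claim t e T f u G v w (S i)) :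
    s.Claim t e T f u G v w (.cn k m S) := by
  classical
  obtain ⟨Lst, hLst⟩ : ∃ Lst, Lst = (List.ofFn fun i => (S i).inst u G).flatten := ⟨_, rfl⟩
  have hinst : (Sch.cn k m S).inst u G = [cnL k Lst] := by rw [inst_cn, hLst]
  have hok0 : s.Ok t e d f (cnL k Lst) := hok _ (by rw [hinst]; exact List.mem_singleton.2 rfl)
  have hR0 : s.Resp t e f (cnL k Lst) := (hok0 _ (subs_self _)).1
  have hd0 : (cnL k Lst).dep 0 ≤ d := (hok0 _ (subs_self _)).2
  have hRm : ∀ A ∈ Lst, s.Resp t e f A := fun A hA => (hok0 _ (subs_mem_cnL hA)).1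
  have hdm : ∀ A ∈ Lst, A.dep 0 ≤ d := fun A hA => (hok0 _ (subs_mem_cnL hA)).2
  have hmem : ∀ A, A ∈ Lst ↔ ∃ i, A ∈ (S i).inst u G := by
    intro A
    rw [hLst, List.mem_flatten]
    constructor
    · rintro ⟨l, hl, hA⟩
      obtain ⟨i, rfl⟩ := (List.mem_ofFn' _ _).1 hl
      exact ⟨i, hA⟩
    · rintro ⟨i, hA⟩
      exact ⟨_, (List.mem_ofFn' _ _).2 ⟨i, rfl⟩, hA⟩
  obtain ⟨lam, hlam⟩ : ∃ lam : Pt n → List Bool, lam = fun x => (List.ofFn fun i => (S i).ev (v x) (w x)).flatten := ⟨_, rfl⟩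
  have hlmem : ∀ x b, b ∈ lam x ↔ ∃ i, b ∈ (S i).ev (v x) (w x) := by
    intro x b
    rw [hlam]
    simp only [List.mem_flatten]
    constructor
    · rintro ⟨l, hl, hA⟩
      obtain ⟨i, rfl⟩ := (List.mem_ofFn' _ _).1 hl
      exact ⟨i, hA⟩
    · rintro ⟨i, hA⟩
      exact ⟨_, (List.mem_ofFn' _ _).2 ⟨i, rfl⟩, hA⟩
  have hev : ∀ x, (Sch.cn k m S).ev (v x) (w x) = [ASchCn_b k (lam x)] := by
    intro x
    rw [hlam]
    cases k <;> rfl
  have hle := ASchCn_le (p := p) (d := d) ht
  have hlT : (t * p) ^ d ≤ T := hle.trans hT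
  have hA0 : s.h t e (cnL k Lst) ∈ Dg K n T := Dg_mono hlT (deg_h s e ht hd0)
  obtain ⟨B, hB⟩ : ∃ B : Pt n → K, B = fun x => if ASchCn_b k (lam x) then 1 else 0 := ⟨_, rfl⟩
  have hlamvw : ∀ x y, v x = v y → w x = w y → lam x = lam y := by
    intro x y h1 h2
    rw [hlam]
    simp only [h1, h2]
  have hBd : B ∈ Dg K n T := by
    refine hD B fun x y h1 h2 => ?_
    rw [hB]
    simp only [hlamvw x y h1 h2]
  have hplB : ∀ x, pl k B x = if k ∈ lam x then 1 else 0 := by
    intro x
    rw [hB]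
    exact ASchCn_pl k lam x
  have hEad : ∀ i, Ea K v w (S i) k ∈ Dg K n T := by
    intro i
    refine hD _ fun x y h1 h2 => ?_
    unfold Ea
    rw [h1, h2]
  have hPd : 1 - pl k (s.h t e (cnL k Lst)) ∈ Dg K n T := Submodule.sub_mem _ (Dg_one _) (pl_dg hA0)
  -- (a)
  obtain ⟨c, hc⟩ : ∃ c : Fin m → Pt n → K, c = fun i x => if k ∈ (S i).ev (v x) (w x) ∧ ∀ j < i, k ∉ (S j).ev (v x) (w x)
      then 1 else 0 := ⟨_, rfl⟩
  have hcd : ∀ i, c i ∈ Dg K n T := by
    intro i
    refine hD _ fun x y h1 h2 => ?_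
    rw [hc]
    simp only [h1, h2]
  have hsum : pl k B = ∑ i, c i * Ea K v w (S i) k := by
    funext x
    rw [hplB, Finset.sum_apply]
    by_cases hk : k ∈ lam x
    · rw [if_pos hk]
      obtain ⟨i0, hi0⟩ := (hlmem x k).1 hk
      obtain ⟨i, hi, hmin⟩ := Finset.exists_min_image (Finset.univ.filter fun i => k ∈ (S i).ev (v x) (w x)) id
        ⟨i0, Finset.mem_filter.2 ⟨Finset.mem_univ _, hi0⟩⟩
      have hi' := (Finset.mem_filter.1 hi).2
      rw [Finset.sum_eq_single i]
      · rw [hc, Pi.mul_apply]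
        unfold Ea
        simp only
        rw [if_pos, if_pos hi', one_mul]
        refine ⟨hi', fun j hj hkj => ?_⟩
        exact absurd (hmin j (Finset.mem_filter.2 ⟨Finset.mem_univ _, hkj⟩)) (not_le.2 hj)
      · intro j _ hji
        rw [hc, Pi.mul_apply]
        unfold Ea
        simp only
        by_cases hkj : k ∈ (S j).ev (v x) (w x)
        · rw [if_neg, zero_mul]
          rintro ⟨_, h2⟩
          have h3 : i ≤ j := hmin j (Finset.mem_filter.2 ⟨Finset.mem_univ _, hkj⟩)
          exact h2 i (lt_of_le_of_ne h3 (Ne.symm hji)) hi'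
        · rw [if_neg hkj, mul_zero]
      · intro hni
        exact absurd (Finset.mem_univ _) hni
    · rw [if_neg hk]
      symm
      refine Finset.sum_eq_zero fun i _ => ?_
      rw [Pi.mul_apply]
      unfold Ea
      rw [if_neg fun h' => hk ((hlmem x k).2 ⟨i, h'⟩), mul_zero]
  have ha : s.Z f ((1 - pl k (s.h t e (cnL k Lst))) * pl k B) := by
    rw [hsum, Finset.mul_sum]
    refine Z_sum s _ _ fun i _ => ?_
    have h1 : s.Z f ((1 - pl k (s.h t e (cnL k Lst))) * Ea K v w (S i) k) := by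
      refine (h i).2.2.2 k _ hPd fun A hA => ?_
      exact gate_mem (d := d) s ht hf hdm hR0 ((hmem A).2 ⟨i, hA⟩) (by omega)
    have h2 := Z_mul s hf (hcd i) (Dg_mul hPd (hEad i)) h1 (by omega)
    have h3 : (1 - pl k (s.h t e (cnL k Lst))) * (c i * Ea K v w (S i) k) =
        c i * ((1 - pl k (s.h t e (cnL k Lst))) * Ea K v w (S i) k) := by ring
    rw [h3]
    exact h2
  -- (b)
  have hQd : 1 - pl k B ∈ Dg K n T := Submodule.sub_mem _ (Dg_one _) (pl_dg hBd)
  have hb : s.Z f ((1 - pl k B) * pl k (s.h t e (cnL k Lst))) := by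
    refine gate_of_mem s ht hf hdm hRm hQd hT hL fun A hA => ?_
    obtain ⟨i, hi⟩ := (hmem A).1 hA
    have h1 := (h i).2.2.1 k A hi
    have hAd : pl k (s.h t e A) ∈ Dg K n T := pl_dg (Dg_mono hlT (deg_h s e ht (hdm A hA)))
    have hEd : 1 - Ea K v w (S i) k ∈ Dg K n T := Submodule.sub_mem _ (Dg_one _) (hEad i)
    have h2 := Z_mul s hf hQd (Dg_mul hEd hAd) h1 (by omega)
    have h3 : (1 - pl k B) * Ea K v w (S i) k = 0 := by
      funext x
      rw [Pi.mul_apply, Pi.sub_apply, hplB, Pi.one_apply, Pi.zero_apply]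
      unfold Ea
      by_cases hk : k ∈ (S i).ev (v x) (w x)
      · rw [if_pos ((hlmem x k).2 ⟨i, hk⟩), sub_self, zero_mul]
      · rw [if_neg hk, mul_zero]
    have h4 : (1 - pl k B) * pl k (s.h t e A) = (1 - pl k B) * ((1 - Ea K v w (S i) k) * pl k (s.h t e A)) +
        (1 - pl k B) * Ea K v w (S i) k * pl k (s.h t e A) := by ring
    rw [h4, h3, zero_mul, add_zero]
    exact h2
  -- (c)
  have hc1 : s.Z f (pl k (s.h t e (cnL k Lst)) - pl k B) := by
    have h1 : pl k (s.h t e (cnL k Lst)) - pl k B = (1 - pl k B) * pl k (s.h t e (cnL k Lst)) -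
        (1 - pl k (s.h t e (cnL k Lst))) * pl k B := by ring
    rw [h1]
    exact Z_sub s hb ha
  have hc2 : s.Z f (s.h t e (cnL k Lst) - B) := by
    cases k with
    | true => exact hc1
    | false =>
      have h1 : s.h t e (cnL false Lst) - B = -(pl false (s.h t e (cnL false Lst)) - pl false B) := by
        unfold pl
        simp only [Bool.false_eq_true, if_false]
        ring
      rw [h1]
      exact Z_neg s hc1
  refine claim_single s hf u G v w hD hL (.cn k m S) (cnL k Lst) (fun x => ASchCn_b k (lam x)) hinst hev hA0 ?_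
  rw [hB] at hc2
  exact hc2

end ACpFrege
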