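import Pool.Agent.H98.AF.AFm

/-!
Row FFVal: the approximating values `h`, the members `hl`, and the gate values `gv`.
PROOFS. `h_*`, `hl_*`: unfold `Slow.h`, `Slow.hl`, `Slow.hv`; for `cnL`, `mdL` use that `List.ofFn fun i => F (l.get i)` is `l.map F`
(`List.map_ofFn`/`List.ofFn_get`); `h_mdL` pointwise: `(l.map (s.h t e)).sum x = Σ_i (s.h t e (l.get i)) x`.
`hl_cases`: cases on `A` and `cn_eq`. `resp_iff`: `Slow.Resp` on `cnL`; `pl false g = 1 - g`, `1 - (1 - g) = g`. `pl_gv`: unfold `gv`.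
`pv_pow`: in `K` of characteristic `p`, `(m : K)^(p-1)` is 0 or 1 (Fermat in `ZMod p`:
`ZMod.pow_card_sub_one_eq_one`, map to `K` by `ZMod.castHom` / `algebraMap` from `ZMod p`, `CharP.cast_eq_zero_iff`).
`gv_bv`: a sum of 0/1 functions is everywhere the image of a natural number, so every factor `1 - q^(p-1)` of `hprod` is 0 or 1 (the
members of `fam` are 0, `g` or `1-g`), a product of 0's and 1's is 0 or 1. `h_bv`, `hl_bv`: induction `indL` on `A`, both together
(`fl_bv` from the members).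
-/

set_option autoImplicit false
open Finset

namespace ACpFrege

variable {K : Type} [Field K] {E : Type} [AddCommGroup E] [Module K E] {n : ℕ} {p : ℕ}

private theorem AVal_map {α : Type} (l : List (Fm p)) (F : Fm p → α) : (List.ofFn fun i => F (l.get i)) = l.map F := by
  have h1 : (List.ofFn fun i => F (l.get i)) = List.map F (List.ofFn l.get) := by
    rw [List.map_ofFn]; rfl
  rw [h1, List.ofFn_get]

private theorem AVal_bool (k k' : Bool) (h : k' ≠ k) : k' = !k := by
  cases k <;> cases k' <;> simp_all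

private theorem AVal_neg {g : Pt n → K} (h : Bv g) : Bv (1 - g) := by
  intro x
  rcases h x with h | h
  · right; simp [h]
  · left; simp [h]

private theorem AVal_one : Bv (1 : Pt n → K) := fun x => Or.inr rfl

private theorem AVal_mul {f g : Pt n → K} (hf : Bv f) (hg : Bv g) : Bv (f * g) := by
  intro x
  rcases hf x with h | h <;> rcases hg x with h' | h' <;> simp [h, h']

private theorem AVal_prod {ι : Type} (S : Finset ι) (F : ι → Pt n → K) (h : ∀ i ∈ S, Bv (F i)) : Bv (∏ i ∈ S, F i) := by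
  classical
  induction S using Finset.induction_on with
  | empty => rw [Finset.prod_empty]; exact AVal_one
  | insert a S ha ih =>
    rw [Finset.prod_insert ha]
    exact AVal_mul (h a (Finset.mem_insert_self a S)) (ih fun i hi => h i (Finset.mem_insert_of_mem hi))

private theorem AVal_sum {ι : Type} (S : Finset ι) (F : ι → Pt n → K) (h : ∀ i ∈ S, Bv (F i)) (x : Pt n) :
    ∃ m : ℕ, (∑ i ∈ S, F i) x = (m : K) := by
  classical
  induction S using Finset.induction_on with
  | empty => exact ⟨0, by simp⟩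
  | insert a S ha ih =>
    obtain ⟨m, hm⟩ := ih fun i hi => h i (Finset.mem_insert_of_mem hi)
    rw [Finset.sum_insert ha, Pi.add_apply, hm]
    rcases h a (Finset.mem_insert_self a S) x with h' | h'
    · exact ⟨m, by rw [h', zero_add]⟩
    · exact ⟨m + 1, by rw [h']; push_cast; ring⟩

private theorem AVal_pow [Fact p.Prime] [CharP K p] (m : ℤ) :
    ((m : K) = 0 ∧ (m : K) ^ (p - 1) = 0) ∨ ((m : K) ≠ 0 ∧ (m : K) ^ (p - 1) = 1) := by
  have hp : p.Prime := Fact.out
  by_cases h : (m : K) = 0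
  · left
    refine ⟨h, ?_⟩
    rw [h]
    exact zero_pow (by have := hp.two_le; omega)
  · right
    refine ⟨h, ?_⟩
    have h1 : (m : ZMod p) ≠ 0 := by
      intro h0
      apply h
      have h2 : (p : ℤ) ∣ m := (ZMod.intCast_zmod_eq_zero_iff_dvd m p).1 h0
      exact (CharP.intCast_eq_zero_iff K p m).2 h2
    have h3 := ZMod.pow_card_sub_one_eq_one h1
    have h4 := congrArg (ZMod.castHom (dvd_refl p) K) h3
    rw [map_pow, map_one, map_intCast] at h4
    exact h4

private theorem AVal_factor [Fact p.Prime] [CharP K p] {c : K} {m : ℤ} (h : c = (m : K)) :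
    1 - c ^ (p - 1) = 0 ∨ 1 - c ^ (p - 1) = 1 := by
  rw [h]
  rcases AVal_pow (K := K) (p := p) m with ⟨_, h2⟩ | ⟨_, h2⟩
  · right; rw [h2, sub_zero]
  · left; rw [h2, sub_self]

private theorem AVal_fam {k : Bool} {l : List (Pt n → K)} (hl : ∀ g ∈ l, Bv g) (i : ℕ) : Bv (fam k l i) := by
  unfold fam
  by_cases h : i < l.length
  · rw [dif_pos h]
    have h1 := hl _ (List.getElem_mem h)
    by_cases hk : k
    · rw [if_pos hk]; exact h1
    · rw [if_neg hk]; exact AVal_neg h1
  · rw [dif_neg h]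
    intro x; left; rfl

private theorem AVal_hprod [Fact p.Prime] [CharP K p] (t : ℕ) (I : ℕ → Finset ℕ) (b : ℕ → Pt n → K) (hb : ∀ i, Bv (b i)) :
    Bv (hprod p t I b) := by
  unfold hprod
  apply AVal_prod
  intro j _ x
  obtain ⟨m, hm⟩ := AVal_sum (I j) b (fun i _ => hb i) x
  have h1 : (∑ i ∈ I j, b i) x = ((m : ℤ) : K) := by rw [hm]; push_cast; rfl
  have h2 := AVal_factor (p := p) h1
  simpa using h2

private theorem AVal_gv [Fact p.Prime] [CharP K p] (s : Slow K E n) (t e : ℕ) (k : Bool) (l : List (Pt n → K))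
    (hl : ∀ g ∈ l, Bv g) : Bv (s.gv p t e k l) := by
  unfold Slow.gv
  have h1 := AVal_hprod (p := p) t (s.sel p t e k l) (fam k l) (AVal_fam hl)
  by_cases hk : k
  · rw [if_pos hk]; exact AVal_neg h1
  · rw [if_neg hk]; exact h1

private theorem AVal_both [Fact p.Prime] [CharP K p] (s : Slow K E n) (t e : ℕ) (A : Fm p) :
    Bv (s.hv t e A).1 ∧ ∀ k, ∀ g ∈ (s.hv t e A).2 k, Bv g := by
  induction A with
  | var x =>
    have h0 : Bv (fun a : Pt n => if h : x < n then (if a ⟨x, h⟩ then (1 : K) else 0) else 0) := by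
      intro a
      by_cases h : x < n
      · by_cases h' : a ⟨x, h⟩
        · right; simp [h, h']
        · left; simp [h, h']
      · left; simp [h]
    refine ⟨by unfold Slow.hv; exact h0, ?_⟩
    intro k g hg
    unfold Slow.hv at hg
    simp only [List.mem_singleton] at hg
    rw [hg]; exact h0
  | neg A ih =>
    have h0 := AVal_neg ih.1
    refine ⟨by unfold Slow.hv; exact h0, ?_⟩
    intro k g hg
    unfold Slow.hv at hg
    simp only [List.mem_singleton] at hg
    rw [hg]; exact h0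
  | cn k m A ih =>
    have hl : ∀ g ∈ (List.ofFn fun i => (s.hv t e (A i)).2 k).flatten, Bv g := by
      intro g hg
      obtain ⟨l, hl, hg⟩ := List.mem_flatten.1 hg
      obtain ⟨i, rfl⟩ := (List.mem_ofFn' _ _).1 hl
      exact (ih i).2 k g hg
    have h0 := AVal_gv (p := p) s t e k _ hl
    refine ⟨by unfold Slow.hv; exact h0, ?_⟩
    intro k' g hg
    unfold Slow.hv at hg
    by_cases hk : k' = k
    · simp only [hk, if_true] at hg
      exact hl g hg
    · simp only [hk, if_false, List.mem_singleton] at hg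
      rw [hg]; exact h0
  | md r m A ih =>
    have h0 : Bv (fun a => 1 - (∑ i, (s.hv t e (A i)).1 a - ((r.val : ℕ) : K)) ^ (p - 1)) := by
      intro x
      obtain ⟨q, hq⟩ := AVal_sum (Finset.univ : Finset (Fin m)) (fun i => (s.hv t e (A i)).1) (fun i _ => (ih i).1) x
      rw [Finset.sum_apply] at hq
      refine AVal_factor (p := p) (m := (q : ℤ) - (r.val : ℤ)) ?_
      rw [hq]; push_cast; rfl
    refine ⟨by unfold Slow.hv; exact h0, ?_⟩
    intro k g hg
    unfold Slow.hv at hg
    simp only [List.mem_singleton] at hg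
    rw [hg]; exact h0

theorem h_var (s : Slow K E n) (t e x : ℕ) :
    s.h t e (.var x : Fm p) = fun a => if h : x < n then (if a ⟨x, h⟩ then 1 else 0) else 0 := by
  unfold Slow.h Slow.hv
  rfl

theorem h_neg (s : Slow K E n) (t e : ℕ) (A : Fm p) : s.h t e (.neg A) = 1 - s.h t e A := by
  unfold Slow.h
  rw [Slow.hv]

theorem h_cnL (s : Slow K E n) (t e : ℕ) (k : Bool) (l : List (Fm p)) :
    s.h t e (cnL k l) = s.gv p t e k (s.fl t e k l) := by
  unfold Slow.h cnL
  rw [Slow.hv]
  unfold Slow.fl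
  simp only
  rw [show (List.ofFn fun i => (s.hv t e (l.get i)).2 k) = l.map (s.hl t e k) from AVal_map l (s.hl t e k)]

theorem h_mdL (s : Slow K E n) (t e : ℕ) (r : ZMod p) (l : List (Fm p)) :
    s.h t e (mdL r l) = 1 - ((l.map (s.h t e)).sum - fun _ => ((r.val : ℕ) : K)) ^ (p - 1) := by
  unfold Slow.h mdL
  rw [Slow.hv]
  funext x
  simp only [Pi.sub_apply, Pi.one_apply, Pi.pow_apply]
  have h1 : (∑ i, (s.hv t e (l.get i)).1 x) = (l.map (fun A => (s.hv t e A).1)).sum x := by
    rw [← AVal_map l (fun A => (s.hv t e A).1), List.sum_ofFn, Finset.sum_apply]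
  rw [h1]

theorem hl_cnL (s : Slow K E n) (t e : ℕ) (k : Bool) (l : List (Fm p)) : s.hl t e k (cnL k l) = s.fl t e k l := by
  unfold Slow.hl cnL
  rw [Slow.hv]
  unfold Slow.fl
  simp only [if_true]
  rw [show (List.ofFn fun i => (s.hv t e (l.get i)).2 k) = l.map (s.hl t e k) from AVal_map l (s.hl t e k)]

theorem hl_cases (s : Slow K E n) (t e : ℕ) (k : Bool) (A : Fm p) :
    s.hl t e k A = [s.h t e A] ∨ ∃ l, A = cnL k l := by
  cases A with
  | var x => left; unfold Slow.hl Slow.h; rw [Slow.hv]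
  | neg A => left; unfold Slow.hl Slow.h; rw [Slow.hv]
  | cn k' m A =>
    by_cases hk : k = k'
    · right
      exact ⟨List.ofFn A, by rw [hk]; exact cn_eq k' m A⟩
    · left
      unfold Slow.hl Slow.h
      rw [Slow.hv]
      simp only [hk, if_false]
  | md r m A => left; unfold Slow.hl Slow.h; rw [Slow.hv]

theorem hl_neg (s : Slow K E n) (t e : ℕ) (k : Bool) (A : Fm p) : s.hl t e k (.neg A) = [1 - s.h t e A] := by
  unfold Slow.hl Slow.h
  rw [Slow.hv]

theorem hl_var (s : Slow K E n) (t e : ℕ) (k : Bool) (x : ℕ) : s.hl t e k (.var x : Fm p) = [s.h t e (.var x : Fm p)] := by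
  unfold Slow.hl Slow.h
  rw [Slow.hv]

theorem mem_fl (s : Slow K E n) (t e : ℕ) (k : Bool) (l : List (Fm p)) (g : Pt n → K) :
    g ∈ s.fl t e k l ↔ ∃ A ∈ l, g ∈ s.hl t e k A := by
  unfold Slow.fl
  rw [List.mem_flatten]
  constructor
  · rintro ⟨l', hl', hg⟩
    obtain ⟨A, hA, rfl⟩ := List.mem_map.1 hl'
    exact ⟨A, hA, hg⟩
  · rintro ⟨A, hA, hg⟩
    exact ⟨_, List.mem_map.2 ⟨A, hA, rfl⟩, hg⟩

theorem resp_iff (s : Slow K E n) (t e : ℕ) (f : E) (k : Bool) (l : List (Fm p)) :
    s.Resp t e f (cnL k l) ↔ ∀ g ∈ s.fl t e k l, s.Z f ((1 - pl k (s.gv p t e k (s.fl t e k l))) * pl k g) := by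
  have h1 : (List.ofFn fun i => s.hl t e k (l.get i)) = l.map (s.hl t e k) := AVal_map l (s.hl t e k)
  unfold cnL
  unfold Slow.Resp
  simp only
  rw [h1]
  unfold Slow.fl pl
  cases k <;> simp

theorem resp_cnL (s : Slow K E n) (t e : ℕ) (f : E) (k : Bool) (l : List (Fm p)) (hR : s.Resp t e f (cnL k l))
    {g : Pt n → K} (hg : g ∈ s.fl t e k l) : s.Z f ((1 - pl k (s.h t e (cnL k l))) * pl k g) := by
  rw [h_cnL]
  exact (resp_iff s t e f k l).1 hR g hg

theorem resp_triv (s : Slow K E n) (t e : ℕ) (f : E) (A : Fm p) (h : ∀ k l, A ≠ cnL k l) : s.Resp t e f A := by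
  cases A with
  | var x => unfold Slow.Resp; trivial
  | neg A => unfold Slow.Resp; trivial
  | cn k m A => exact absurd (cn_eq k m A) (h k _)
  | md r m A => unfold Slow.Resp; trivial

theorem pl_gv (s : Slow K E n) (t e : ℕ) (k : Bool) (l : List (Pt n → K)) :
    pl k (s.gv p t e k l) = 1 - hprod p t (s.sel p t e k l) (fam k l) := by
  unfold pl Slow.gv
  cases k <;> simp

theorem pl_pl (k : Bool) (g : Pt n → K) : pl k (pl k g) = g := by
  unfold pl
  cases k <;> simp

theorem pl_not (k : Bool) (g : Pt n → K) : pl (!k) g = 1 - pl k g := by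
  unfold pl
  cases k <;> simp

theorem pl_neg (k : Bool) (g : Pt n → K) : pl k (1 - g) = pl (!k) g := by
  unfold pl
  cases k <;> simp

theorem fam_eq (k : Bool) (l : List (Pt n → K)) (i : ℕ) (h : i < l.length) : fam k l i = pl k l[i] := by
  unfold fam pl
  rw [dif_pos h]

theorem pl_bv {k : Bool} {g : Pt n → K} (h : Bv g) : Bv (pl k g) := by
  unfold pl
  by_cases hk : k
  · rw [if_pos hk]; exact h
  · rw [if_neg hk]; exact AVal_neg h

theorem pv_pow [Fact p.Prime] [CharP K p] (m : ℤ) :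
    ((m : K) = 0 ∧ (m : K) ^ (p - 1) = 0) ∨ ((m : K) ≠ 0 ∧ (m : K) ^ (p - 1) = 1) := by
  exact AVal_pow m

theorem gv_bv [Fact p.Prime] [CharP K p] (s : Slow K E n) (t e : ℕ) (k : Bool) (l : List (Pt n → K)) (hl : ∀ g ∈ l, Bv g) :
    Bv (s.gv p t e k l) := by
  exact AVal_gv s t e k l hl

theorem h_bv [Fact p.Prime] [CharP K p] (s : Slow K E n) (t e : ℕ) (A : Fm p) : Bv (s.h t e A) := by
  exact (AVal_both s t e A).1

theorem hl_bv [Fact p.Prime] [CharP K p] (s : Slow K E n) (t e : ℕ) (k : Bool) (A : Fm p) :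
    ∀ g ∈ s.hl t e k A, Bv g := by
  exact (AVal_both s t e A).2 k

theorem fl_bv [Fact p.Prime] [CharP K p] (s : Slow K E n) (t e : ℕ) (k : Bool) (l : List (Fm p)) :
    ∀ g ∈ s.fl t e k l, Bv g := by
  intro g hg
  obtain ⟨A, _, hg⟩ := (mem_fl s t e k l g).1 hg
  exact (AVal_both s t e A).2 k g hg

theorem sum_nat [Fact p.Prime] [CharP K p] (s : Slow K E n) (t e : ℕ) (l : List (Fm p)) (x : Pt n) :
    ∃ m : ℕ, (l.map (s.h t e)).sum x = (m : K) := by
  induction l with
  | nil => exact ⟨0, by simp⟩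
  | cons A l ih =>
    obtain ⟨m, hm⟩ := ih
    rw [List.map_cons, List.sum_cons, Pi.add_apply, hm]
    rcases (AVal_both s t e A).1 x with h | h
    · exact ⟨m, by rw [show s.h t e A x = 0 from h, zero_add]⟩
    · exact ⟨m + 1, by rw [show s.h t e A x = 1 from h]; push_cast; ring⟩

end ACpFrege
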